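import Pool.Agent.T2h10.MB.Alt

/-! A consequence of the alternative laws for Malcev algebras inside commutator algebras. -/

namespace T2h10.MB

/-- The Jacobian of an anticommutative algebra. -/
def JM {M : Type*} [NonUnitalNonAssocRing M] (x y z : M) : M :=
  (x * y) * z + (y * z) * x + (z * x) * y

variable {K M A : Type*} [Field K] [NonUnitalNonAssocRing M] [Module K M]
  [NonUnitalNonAssocRing A] [Module K A]

theorem zsmul_cancel (n : ℤ) (hn : (n : K) ≠ 0) (x : A) (h : n • x = 0) : x = 0 := by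
  have : (n : K) • x = 0 := by rw [Int.cast_smul_eq_zsmul]; exact h
  exact (smul_eq_zero.mp this).resolve_left hn

theorem f_JM (hA : Alt A) (f : M →ₗ[K] A) (hf : ∀ x y : M, f (x * y) = f x * f y - f y * f x)
    (x y z : M) : f (JM x y z) = (6 : ℤ) • asr (f x) (f y) (f z) := by
  rw [← jac6 hA]
  simp only [JM, map_add, hf, cm]

theorem exc (h2 : (2 : K) ≠ 0) (h3 : (3 : K) ≠ 0) (hA : Alt A) (f : M →ₗ[K] A)
    (hf : ∀ x y : M, f (x * y) = f x * f y - f y * f x) (a b c d e p g : M)
    (r1 : JM e b g = 0) (r2 : JM a p g = 0) (r3 : JM a b g = 0) (r4 : e * d = 0)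
    (r5 : c * p = 0) (r6 : JM c d g = 0) :
    f ((3 : ℤ) • (((a * b) * (c * d)) * JM e p g) - JM (a * b) (c * d) (JM e p g)) = 0 := by
  have h6 : ((6 : ℤ) : K) ≠ 0 := by
    have : ((6 : ℤ) : K) = 2 * 3 := by norm_num
    rw [this]; exact mul_ne_zero h2 h3
  have h2' : ∀ x : A, x + x = 0 → x = 0 := by
    intro x hx
    have : (2 : K) • x = 0 := by rw [two_smul]; exact hx
    exact (smul_eq_zero.mp this).resolve_left h2
  have J0 : ∀ x y z : M, JM x y z = 0 → asr (f x) (f y) (f z) = 0 := by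
    intro x y z h
    apply zsmul_cancel (K := K) 6 h6
    rw [← f_JM hA f hf, h, map_zero]
  have c0 : ∀ x y : M, x * y = 0 → cm (f x) (f y) = 0 := by
    intro x y h
    rw [cm, ← hf, h, map_zero]
  have ci0 : ∀ x : A, circ x 0 = 0 := by intro x; simp [circ]
  have ci0' : ∀ x : A, circ 0 x = 0 := by intro x; simp [circ]
  set v := asr (f e) (f p) (f g) with hv
  set u := cm (f a) (f b) with hu
  set w := cm (f c) (f d) with hw
  have s1 : circ u v = 0 := by
    have := star4 hA h2' (f a) (f b) (f e) (f p) (f g)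
    rw [J0 e b g r1, J0 a p g r2, J0 a b g r3, ci0, ci0, ci0] at this
    simpa using this
  have s2 : circ w v = 0 := by
    have := star4 hA h2' (f c) (f d) (f e) (f p) (f g)
    rw [c0 e d r4, c0 c p r5, J0 c d g r6, ci0, ci0', ci0'] at this
    simpa using this
  have s3 := delta hA u w v
  rw [s1, s2, ci0, ci0, sub_zero] at s3
  have fu : f (a * b) = u := by rw [hf, hu, cm]
  have fw : f (c * d) = w := by rw [hf, hw, cm]
  have fv : f (JM e p g) = (6 : ℤ) • v := f_JM hA f hf e p g
  have fuw : f ((a * b) * (c * d)) = cm u w := by rw [hf, fu, fw, cm]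
  rw [map_sub, map_zsmul, hf, fuw, fv, f_JM hA f hf, fu, fw, fv]
  have e1 : cm u w * (6 : ℤ) • v - (6 : ℤ) • v * cm u w = (6 : ℤ) • cm (cm u w) v := by
    rw [cm, mul_smul_comm, smul_mul_assoc, ← smul_sub]; rfl
  have e2 : asr u w ((6 : ℤ) • v) = (6 : ℤ) • asr u w v := by
    simp only [asr, mul_smul_comm, ← smul_sub]
  rw [e1, e2]
  have : (3 : ℤ) • (6 : ℤ) • cm (cm u w) v - (6 : ℤ) • (6 : ℤ) • asr u w v
      = (18 : ℤ) • (cm (cm u w) v - (asr u w v + asr u w v)) := by
    simp only [smul_sub, smul_add, smul_smul]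
    norm_num
    rw [← add_smul]; norm_num
  rw [this, ← s3, smul_zero]

end T2h10.MB
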