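import Pool.Agent.T2h10.MB.Main
import Pool.Agent.T2h10.MB.Exc

/-! The Malcev algebra over `ZMod 5` that does not embed in any commutator algebra of an
alternative algebra. -/

namespace T2h10.MB

/-- The underlying space of the algebra. -/
def W : Type := ℕ →₀ ZMod 5

noncomputable instance : AddCommGroup W := inferInstanceAs (AddCommGroup (ℕ →₀ ZMod 5))
noncomputable instance : Module (ZMod 5) W := inferInstanceAs (Module (ZMod 5) (ℕ →₀ ZMod 5))

noncomputable instance : NonUnitalNonAssocRing W :=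
  { (inferInstance : AddCommGroup W) with
    mul := fun x y => mu TB x y
    left_distrib := fun a b c => map_add (mu TB a) b c
    right_distrib := fun a b c => by
      change mu TB (a + b) c = mu TB a c + mu TB b c
      exact LinearMap.map_add₂ (mu TB) a b c
    zero_mul := fun a => by
      change mu TB 0 a = 0
      exact LinearMap.map_zero₂ (mu TB) a
    mul_zero := fun a => map_zero (mu TB a) }

theorem mul_W (x y : W) : x * y = mu TB x y := rfl

instance : IsScalarTower (ZMod 5) W W where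
  smul_assoc c x y := by
    change mu TB (c • x) y = c • mu TB x y
    exact LinearMap.map_smul₂ (mu TB) c x y

instance : SMulCommClass (ZMod 5) W W where
  smul_comm c x y := by
    change c • mu TB x y = mu TB x (c • y)
    exact (map_smul (mu TB x) c y).symm

instance fact5 : Fact (Nat.Prime 5) := ⟨by norm_num⟩

theorem W_sq (x : W) : x * x = 0 := by
  have h : x * x = - (x * x) := mu_anti x x
  have h2 : (2 : ZMod 5) • (x * x) = 0 := by
    rw [two_smul]
    nth_rewrite 2 [h]
    exact add_neg_cancel _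
  exact (smul_eq_zero.mp h2).resolve_left (by decide)

theorem W_malcev (x y z : W) :
    (x * y) * (x * z) = ((x * y) * z) * x + ((y * z) * x) * x + ((z * x) * x) * y := by
  have h : -((x * y) * (x * z)) + (((x * x) * y) * z + (((x * y) * z) * x +
    (((y * z) * x) * x + ((z * x) * x) * y))) = 0 := SG_zero x x y z
  rw [W_sq, zero_mul, zero_mul, zero_add] at h
  have h' := neg_add_eq_zero.mp h
  rw [h', add_assoc]

/-- Coded Jacobian of basis vectors. -/
def JL (i j k : ℕ) : List ℕ :=
  mulR TB (TB i j) k ++ (mulR TB (TB j k) i ++ mulR TB (TB k i) j)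

/-- Basis vectors of `W`. -/
noncomputable def eW (i : ℕ) : W := ev i

/-- The Jacobian on the level of `V`. -/
noncomputable def JV (x y z : V) : V :=
  mu TB (mu TB x y) z + mu TB (mu TB y z) x + mu TB (mu TB z x) y

theorem JV_ev (i j k : ℕ) : JV (ev i) (ev j) (ev k) = toM (JL i j k) := by
  have : toM (JL i j k) = mu TB (mu TB (ev i) (ev j)) (ev k) +
      (mu TB (mu TB (ev j) (ev k)) (ev i) + mu TB (mu TB (ev k) (ev i)) (ev j)) := by
    simp only [JL, toM_append, toM_mulR, mu_ev]; rfl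
  rw [this, JV, add_assoc]

theorem JM_ev (i j k : ℕ) : JM (eW i) (eW j) (eW k) = toM (JL i j k) := JV_ev i j k

theorem mul_ev (i j : ℕ) : eW i * eW j = toM (TB i j) := mu_ev TB i j

theorem rel_J (i j k : ℕ) (h : isz 12 (JL i j k) = true) : JM (eW i) (eW j) (eW k) = 0 := by
  rw [JM_ev]; exact isz_sound _ _ h

theorem rel_m (i j : ℕ) (h : isz 12 (TB i j) = true) : eW i * eW j = 0 := by
  rw [mul_ev]; exact isz_sound _ _ h

/-- The coded top element. -/
def top : List ℕ :=
  (fun U W' V' : List ℕ =>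
    (fun A B C : List ℕ => A ++ (A ++ (A ++ negL (A ++ (B ++ C)))))
      (mulLL TB (mulLL TB U W') V') (mulLL TB (mulLL TB W' V') U) (mulLL TB (mulLL TB V' U) W'))
    (TB 1 2) (TB 4 8) (JL 16 32 64)

theorem top_eq : (3 : ℤ) • (((eW 1 * eW 2) * (eW 4 * eW 8)) * JM (eW 16) (eW 32) (eW 64))
      - JM (eW 1 * eW 2) (eW 4 * eW 8) (JM (eW 16) (eW 32) (eW 64)) = toM top := by
  have hc : ∀ a b c : List ℕ, ∀ a' b' c' : List ℕ,
      Cd (mulLL TB a a' ++ (mulLL TB b b' ++ mulLL TB c c')) := by
    intro a b c a' b' c' n hn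
    simp only [List.mem_append] at hn
    rcases hn with hn | hn | hn
    · exact cd_mulLL _ _ _ n hn
    · exact cd_mulLL _ _ _ n hn
    · exact cd_mulLL _ _ _ n hn
  have e : toM top = mu TB (mu TB (toM (TB 1 2)) (toM (TB 4 8))) (toM (JL 16 32 64))
      + (mu TB (mu TB (toM (TB 1 2)) (toM (TB 4 8))) (toM (JL 16 32 64))
      + (mu TB (mu TB (toM (TB 1 2)) (toM (TB 4 8))) (toM (JL 16 32 64))
      + -(mu TB (mu TB (toM (TB 1 2)) (toM (TB 4 8))) (toM (JL 16 32 64))
        + (mu TB (mu TB (toM (TB 4 8)) (toM (JL 16 32 64))) (toM (TB 1 2))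
        + mu TB (mu TB (toM (JL 16 32 64)) (toM (TB 1 2))) (toM (TB 4 8)))))) := by
    simp only [top, toM_append, toM_negL _ (hc _ _ _ _ _ _), toM_mulLL]
  change (3 : ℤ) • mu TB (mu TB (mu TB (ev 1) (ev 2)) (mu TB (ev 4) (ev 8)))
      (JV (ev 16) (ev 32) (ev 64))
    - JV (mu TB (ev 1) (ev 2)) (mu TB (ev 4) (ev 8)) (JV (ev 16) (ev 32) (ev 64)) = toM top
  rw [e, JV_ev, mu_ev, mu_ev, JV]
  generalize mu TB (mu TB (toM (TB 1 2)) (toM (TB 4 8))) (toM (JL 16 32 64)) = A
  generalize mu TB (mu TB (toM (TB 4 8)) (toM (JL 16 32 64))) (toM (TB 1 2)) = B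
  generalize mu TB (mu TB (toM (JL 16 32 64)) (toM (TB 1 2))) (toM (TB 4 8)) = C
  abel

theorem top_ne : toM top ≠ 0 := by
  have h1 : isz 12 (rest 127 top) = true := by decide +kernel
  have h2 : csum 127 top % 5 = 1 := by decide +kernel
  rw [toM_split 127 top, isz_sound _ _ h1, add_zero]
  intro h
  rw [Finsupp.single_eq_zero, ← ZMod.natCast_mod, h2] at h
  exact absurd h (by decide)

theorem no_embedding : ¬ ∃ (A : Type) (_ : NonUnitalNonAssocRing A) (_ : Module (ZMod 5) A)
        (_ : IsScalarTower (ZMod 5) A A) (_ : SMulCommClass (ZMod 5) A A),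
        (∀ x y : A, (x * x) * y = x * (x * y)) ∧
        (∀ x y : A, (y * x) * x = y * (x * x)) ∧
        ∃ f : W →ₗ[ZMod 5] A, Function.Injective f ∧
          ∀ x y : W, f (x * y) = f x * f y - f y * f x := by
  rintro ⟨A, i1, i2, i3, i4, h1, h2, f, hinj, hf⟩
  have key := exc (K := ZMod 5) (by decide) (by decide) ⟨h1, h2⟩ f hf
    (eW 1) (eW 2) (eW 4) (eW 8) (eW 16) (eW 32) (eW 64)
    (rel_J _ _ _ (by decide +kernel)) (rel_J _ _ _ (by decide +kernel))
    (rel_J _ _ _ (by decide +kernel)) (rel_m _ _ (by decide +kernel))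
    (rel_m _ _ (by decide +kernel)) (rel_J _ _ _ (by decide +kernel))
  have h0 := hinj (key.trans (map_zero f).symm)
  rw [top_eq] at h0
  exact top_ne h0

end T2h10.MB
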