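import Pool.Agent.T2h10.MB.Chk

namespace T2h10.MB

theorem p1_7 : chkP 1 13 1 = true := by decide +kernel
theorem p1_8 : chkP 1 14 13 = true := by decide +kernel
theorem p1_9 : chkP 1 27 2 = true := by decide +kernel
theorem p1_10 : chkP 1 29 18 = true := by decide +kernel
theorem p1_11 : chkP 1 47 55 = true := by decide +kernel
theorem p1_12 : chkP 1 102 44 = true := by decide +kernel
theorem p1_e : ((nb 1).drop 146).all (fun _ => false) = true := by decide +kernel

end T2h10.MB
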