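import Pool.Agent.T2h10.MB.Chk

namespace T2h10.MB

theorem p2_0 : chkP 2 0 1 = true := by decide +kernel
theorem p2_1 : chkP 2 1 1 = true := by decide +kernel
theorem p2_2 : chkP 2 2 1 = true := by decide +kernel
theorem p2_3 : chkP 2 3 3 = true := by decide +kernel
theorem p2_4 : chkP 2 6 1 = true := by decide +kernel
theorem p2_5 : chkP 2 7 6 = true := by decide +kernel
theorem p2_6 : chkP 2 13 1 = true := by decide +kernel

end T2h10.MB
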