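import Pool.Agent.T2h10.MB.Chk

namespace T2h10.MB

theorem p2_7 : chkP 2 14 13 = true := by decide +kernel
theorem p2_8 : chkP 2 27 2 = true := by decide +kernel
theorem p2_9 : chkP 2 29 31 = true := by decide +kernel
theorem p2_10 : chkP 2 60 70 = true := by decide +kernel
theorem p2_11 : chkP 2 130 27 = true := by decide +kernel
theorem p2_e : ((nb 2).drop 157).all (fun _ => false) = true := by decide +kernel
theorem p3_0 : chkP 3 0 12 = true := by decide +kernel

end T2h10.MB
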