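import Pool.Agent.T2h10.MB.Chk

namespace T2h10.MB

theorem p3_1 : chkP 3 12 43 = true := by decide +kernel
theorem p3_e : ((nb 3).drop 55).all (fun _ => false) = true := by decide +kernel
theorem p4_0 : chkP 4 0 2 = true := by decide +kernel
theorem p4_1 : chkP 4 2 6 = true := by decide +kernel
theorem p4_2 : chkP 4 8 9 = true := by decide +kernel
theorem p4_3 : chkP 4 17 12 = true := by decide +kernel

end T2h10.MB
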