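import Pool.Agent.T2h10.MB.Chk

namespace T2h10.MB

theorem p4_4 : chkP 4 29 95 = true := by decide +kernel
theorem p4_5 : chkP 4 124 28 = true := by decide +kernel
theorem p4_e : ((nb 4).drop 152).all (fun _ => false) = true := by decide +kernel
theorem p8_0 : chkP 8 0 8 = true := by decide +kernel
theorem p8_1 : chkP 8 8 15 = true := by decide +kernel
theorem p8_2 : chkP 8 23 49 = true := by decide +kernel
theorem p8_3 : chkP 8 72 101 = true := by decide +kernel
theorem p8_e : ((nb 8).drop 173).all (fun _ => false) = true := by decide +kernel
theorem g4 : ((idxL.drop 4).take 1).all chkI = true := by decide +kernel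

end T2h10.MB
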