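import Pool.Agent.T2h10.MB.Chk

namespace T2h10.MB

theorem g5 : ((idxL.drop 5).take 1).all chkI = true := by decide +kernel
theorem g6 : ((idxL.drop 6).take 1).all chkI = true := by decide +kernel
theorem g8 : ((idxL.drop 8).take 3).all chkI = true := by decide +kernel
theorem g11 : ((idxL.drop 11).take 18).all chkI = true := by decide +kernel
theorem g29 : ((idxL.drop 29).take 86).all chkI = true := by decide +kernel

end T2h10.MB
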