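import Pool.Agent.T2h10.MB.Chk

namespace T2h10.MB

theorem g115 : ((idxL.drop 115).take 86).all chkI = true := by decide +kernel
theorem g201 : ((idxL.drop 201).take 86).all chkI = true := by decide +kernel
theorem g287 : ((idxL.drop 287).take 63).all chkI = true := by decide +kernel

end T2h10.MB
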