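import Pool.Agent.T2h10.MB.K0
import Pool.Agent.T2h10.MB.K1
import Pool.Agent.T2h10.MB.K2
import Pool.Agent.T2h10.MB.K3
import Pool.Agent.T2h10.MB.K4
import Pool.Agent.T2h10.MB.K5
import Pool.Agent.T2h10.MB.K6
import Pool.Agent.T2h10.MB.K7

/-! Combination of the partial checks. -/

namespace T2h10.MB

theorem h1 : chkI 1 = true := by
  have e : ((nb 1).drop 146).all (bodyJ 1 (nb 1)) = true := by
    cases h : (nb 1).drop 146 with
    | nil => rfl
    | cons x L => have := p1_e; rw [h] at this; simp at this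
  have e12 : ((nb 1).drop 102).all (bodyJ 1 (nb 1)) = true := chunk (b := 44) p1_12 e
  have e11 : ((nb 1).drop 47).all (bodyJ 1 (nb 1)) = true := chunk (b := 55) p1_11 e12
  have e10 : ((nb 1).drop 29).all (bodyJ 1 (nb 1)) = true := chunk (b := 18) p1_10 e11
  have e9 : ((nb 1).drop 27).all (bodyJ 1 (nb 1)) = true := chunk (b := 2) p1_9 e10
  have e8 : ((nb 1).drop 14).all (bodyJ 1 (nb 1)) = true := chunk (b := 13) p1_8 e9
  have e7 : ((nb 1).drop 13).all (bodyJ 1 (nb 1)) = true := chunk (b := 1) p1_7 e8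
  have e6 : ((nb 1).drop 7).all (bodyJ 1 (nb 1)) = true := chunk (b := 6) p1_6 e7
  have e5 : ((nb 1).drop 6).all (bodyJ 1 (nb 1)) = true := chunk (b := 1) p1_5 e6
  have e4 : ((nb 1).drop 4).all (bodyJ 1 (nb 1)) = true := chunk (b := 2) p1_4 e5
  have e3 : ((nb 1).drop 3).all (bodyJ 1 (nb 1)) = true := chunk (b := 1) p1_3 e4
  have e2 : ((nb 1).drop 2).all (bodyJ 1 (nb 1)) = true := chunk (b := 1) p1_2 e3
  have e1 : ((nb 1).drop 1).all (bodyJ 1 (nb 1)) = true := chunk (b := 1) p1_1 e2
  have e0 : ((nb 1).drop 0).all (bodyJ 1 (nb 1)) = true := chunk (b := 1) p1_0 e1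
  exact e0

theorem h2 : chkI 2 = true := by
  have e : ((nb 2).drop 157).all (bodyJ 2 (nb 2)) = true := by
    cases h : (nb 2).drop 157 with
    | nil => rfl
    | cons x L => have := p2_e; rw [h] at this; simp at this
  have e11 : ((nb 2).drop 130).all (bodyJ 2 (nb 2)) = true := chunk (b := 27) p2_11 e
  have e10 : ((nb 2).drop 60).all (bodyJ 2 (nb 2)) = true := chunk (b := 70) p2_10 e11
  have e9 : ((nb 2).drop 29).all (bodyJ 2 (nb 2)) = true := chunk (b := 31) p2_9 e10
  have e8 : ((nb 2).drop 27).all (bodyJ 2 (nb 2)) = true := chunk (b := 2) p2_8 e9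
  have e7 : ((nb 2).drop 14).all (bodyJ 2 (nb 2)) = true := chunk (b := 13) p2_7 e8
  have e6 : ((nb 2).drop 13).all (bodyJ 2 (nb 2)) = true := chunk (b := 1) p2_6 e7
  have e5 : ((nb 2).drop 7).all (bodyJ 2 (nb 2)) = true := chunk (b := 6) p2_5 e6
  have e4 : ((nb 2).drop 6).all (bodyJ 2 (nb 2)) = true := chunk (b := 1) p2_4 e5
  have e3 : ((nb 2).drop 3).all (bodyJ 2 (nb 2)) = true := chunk (b := 3) p2_3 e4
  have e2 : ((nb 2).drop 2).all (bodyJ 2 (nb 2)) = true := chunk (b := 1) p2_2 e3
  have e1 : ((nb 2).drop 1).all (bodyJ 2 (nb 2)) = true := chunk (b := 1) p2_1 e2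
  have e0 : ((nb 2).drop 0).all (bodyJ 2 (nb 2)) = true := chunk (b := 1) p2_0 e1
  exact e0

theorem h3 : chkI 3 = true := by
  have e : ((nb 3).drop 55).all (bodyJ 3 (nb 3)) = true := by
    cases h : (nb 3).drop 55 with
    | nil => rfl
    | cons x L => have := p3_e; rw [h] at this; simp at this
  have e1 : ((nb 3).drop 12).all (bodyJ 3 (nb 3)) = true := chunk (b := 43) p3_1 e
  have e0 : ((nb 3).drop 0).all (bodyJ 3 (nb 3)) = true := chunk (b := 12) p3_0 e1
  exact e0

theorem h4 : chkI 4 = true := by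
  have e : ((nb 4).drop 152).all (bodyJ 4 (nb 4)) = true := by
    cases h : (nb 4).drop 152 with
    | nil => rfl
    | cons x L => have := p4_e; rw [h] at this; simp at this
  have e5 : ((nb 4).drop 124).all (bodyJ 4 (nb 4)) = true := chunk (b := 28) p4_5 e
  have e4 : ((nb 4).drop 29).all (bodyJ 4 (nb 4)) = true := chunk (b := 95) p4_4 e5
  have e3 : ((nb 4).drop 17).all (bodyJ 4 (nb 4)) = true := chunk (b := 12) p4_3 e4
  have e2 : ((nb 4).drop 8).all (bodyJ 4 (nb 4)) = true := chunk (b := 9) p4_2 e3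
  have e1 : ((nb 4).drop 2).all (bodyJ 4 (nb 4)) = true := chunk (b := 6) p4_1 e2
  have e0 : ((nb 4).drop 0).all (bodyJ 4 (nb 4)) = true := chunk (b := 2) p4_0 e1
  exact e0

theorem h8 : chkI 8 = true := by
  have e : ((nb 8).drop 173).all (bodyJ 8 (nb 8)) = true := by
    cases h : (nb 8).drop 173 with
    | nil => rfl
    | cons x L => have := p8_e; rw [h] at this; simp at this
  have e3 : ((nb 8).drop 72).all (bodyJ 8 (nb 8)) = true := chunk (b := 101) p8_3 e
  have e2 : ((nb 8).drop 23).all (bodyJ 8 (nb 8)) = true := chunk (b := 49) p8_2 e3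
  have e1 : ((nb 8).drop 8).all (bodyJ 8 (nb 8)) = true := chunk (b := 15) p8_1 e2
  have e0 : ((nb 8).drop 0).all (bodyJ 8 (nb 8)) = true := chunk (b := 8) p8_0 e1
  exact e0

theorem kall : idxL.all chkI = true := by
  have e : (idxL.drop 350).all chkI = true := by decide +kernel
  have f13 : (idxL.drop 287).all chkI = true := chunk (b := 63) g287 e
  have f12 : (idxL.drop 201).all chkI = true := chunk (b := 86) g201 f13
  have f11 : (idxL.drop 115).all chkI = true := chunk (b := 86) g115 f12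
  have f10 : (idxL.drop 29).all chkI = true := chunk (b := 86) g29 f11
  have f9 : (idxL.drop 11).all chkI = true := chunk (b := 18) g11 f10
  have f8 : (idxL.drop 8).all chkI = true := chunk (b := 3) g8 f9
  have q7 : (idxL.drop 7).take 1 = [8] := by decide +kernel
  have f7 : (idxL.drop 7).all chkI = true := chunk (b := 1) (by rw [q7, List.all_cons, h8]; rfl) f8
  have f6 : (idxL.drop 6).all chkI = true := chunk (b := 1) g6 f7
  have f5 : (idxL.drop 5).all chkI = true := chunk (b := 1) g5 f6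
  have f4 : (idxL.drop 4).all chkI = true := chunk (b := 1) g4 f5
  have q3 : (idxL.drop 3).take 1 = [4] := by decide +kernel
  have f3 : (idxL.drop 3).all chkI = true := chunk (b := 1) (by rw [q3, List.all_cons, h4]; rfl) f4
  have q2 : (idxL.drop 2).take 1 = [3] := by decide +kernel
  have f2 : (idxL.drop 2).all chkI = true := chunk (b := 1) (by rw [q2, List.all_cons, h3]; rfl) f3
  have q1 : (idxL.drop 1).take 1 = [2] := by decide +kernel
  have f1 : (idxL.drop 1).all chkI = true := chunk (b := 1) (by rw [q1, List.all_cons, h2]; rfl) f2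
  have q0 : (idxL.drop 0).take 1 = [1] := by decide +kernel
  have f0 : (idxL.drop 0).all chkI = true := chunk (b := 1) (by rw [q0, List.all_cons, h1]; rfl) f1
  exact f0

end T2h10.MB
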