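import Pool.Agent.T2h10.MB.Tree

/-! Multiplication table (data). -/

namespace T2h10.MB

def r1 : Tr (List ℕ) := (.n (.n (.n (.n (.n (.n (.l 1 [521]) (.n (.l 0 [265]) (.l 0 [777]))) (.n (.n (.l 0 [137]) (.l 0 [649])) (.n (.l 0 [393]) (.n (.n (.l 0 [905]) (.l 0 [2953])) (.l 0 [1929]))))) (.n (.n (.n (.l 0 [73]) (.l 0 [585])) (.n .e (.n (.l 0 [841]) (.l 0 [1865])))) (.n (.n .e (.n (.l 0 [713]) (.l 0 [1737]))) (.n (.l 0 [457]) (.n (.n (.l 0 [969]) (.l 0 [3017])) (.n (.l 0 [1993]) (.l 0 [971,1995,3017]))))))) (.n (.n (.n (.n (.l 0 [41]) (.l 0 [553])) (.n .e (.n (.l 0 [809]) (.l 0 [1833])))) (.n (.n (.l 0 [169]) (.n (.l 0 [681]) (.l 0 [1705]))) (.n (.n (.l 0 [425]) (.l 0 [1449])) (.n (.n (.n (.l 0 [937]) (.l 0 [939])) (.l 0 [938])) (.n (.n (.l 0 [1961]) (.l 0 [940])) (.l 0 [1962])))))) (.n (.n (.n (.l 0 [105]) (.n (.l 0 [617]) (.l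 0 [1641]))) (.n (.l 0 [361]) (.n (.n (.l 0 [873]) (.l 0 [2921])) (.l 0 [1897])))) (.n (.n (.n (.l 0 [233]) (.l 0 [1257])) (.n (.n (.n (.l 0 [745]) (.l 0 [745,1771])) (.l 0 [747,1769])) (.n (.l 0 [1769]) (.l 0 [1769])))) (.n (.n (.l 0 [489]) (.l 0 [1513])) (.n (.n (.l 0 [1001]) (.l 0 [1003])) .e)))))) (.n (.n (.n (.n (.n (.l 0 [25]) (.l 0 [537])) (.n (.l 0 [281]) (.n (.n (.l 0 [793]) (.l 0 [2841])) (.l 0 [1817])))) (.n (.n (.l 0 [153]) (.n (.l 0 [665]) (.l 0 [1689]))) (.n (.n (.n (.l 0 [409]) (.l 0 [2457])) (.l 0 [1433])) (.n (.n (.n (.n (.l 0 [921]) (.l 0 [923,2969])) (.l 0 [924,1946])) (.n (.l 0 [2969]) (.l 0 [924,2970]))) (.n (.n (.l 0 [1945]) (.l 0 [1948,2969])) (.n (.l 0 [921,1946,2971]) (.l 0 [924,2971]))))))) (.n (.n (.n .e (.n (.l 0 [601]) (.l 0 [1625]))) (.n (.l 0 [345]) (.n (.n (.l 0 [857]) (.l 0 [2905])) (.n (.l 0 [1881])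 (.l 0 [859,1881,2907]))))) (.n (.n (.l 0 [217]) (.n (.n (.l 0 [729]) (.l 0 [732])) (.l 0 [1753]))) (.n (.l 0 [473]) (.n (.l 1 [987]) (.l 0 [985])))))) (.n (.n (.n (.n (.l 0 [57]) (.n (.n (.l 0 [569]) (.l 0 [2617])) (.l 0 [1593]))) (.n (.n (.l 0 [313]) (.l 0 [1337])) (.n (.n (.n (.l 0 [825]) (.l 0 [826,1850])) (.l 0 [827,1849])) (.n (.n (.l 0 [1849]) (.l 0 [828,1851])) (.l 0 [828,1852]))))) (.n (.n (.n (.n (.l 0 [185]) (.l 0 [2233])) (.l 0 [1209])) (.n (.n (.n (.l 0 [697]) (.l 0 [697,1721])) (.n (.l 0 [1721]) (.l 0 [1721]))) (.n (.l 1 [699,1723]) (.l 0 [1722])))) (.n (.n (.n (.n (.l 0 [441]) (.l 0 [2489])) (.n (.l 0 [1465]) (.l 0 [444,1467,2492]))) (.n (.n (.l 0 [444]) (.l 0 [441,1468,2491])) (.l 0 [442]))) (.n (.l 0 [953]) (.l 0 [953]))))) (.n (.n (.n (.n (.l 0 [121]) (.l 0 [1145])) (.n (.n (.n (.l 0 [633]) (.l 0 [633,1660]))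 (.l 0 [2681])) (.n (.n (.l 0 [1657]) (.l 0 [636,2682])) (.l 0 [1660,2682])))) (.n (.n (.l 0 [377]) (.l 0 [1401])) (.n (.l 1 [891]) (.l 0 [889])))) (.n (.n (.n (.l 0 [249]) (.l 0 [249])) (.n (.n (.l 0 [761]) (.l 0 [763])) (.l 0 [762]))) (.n (.n (.n (.l 0 [505]) (.l 0 [507])) (.l 0 [506])) (.l 0 [1017]))))))) .e)
def r2 : Tr (List ℕ) := (.n (.n (.n (.n (.n (.n (.l 1 [529]) (.n (.l 0 [273]) (.l 0 [785]))) (.n (.n (.l 0 [145]) (.l 0 [657])) (.n (.l 0 [401]) (.n (.n (.l 0 [913]) (.l 0 [2961])) (.l 0 [1937]))))) (.n (.n (.l 1 [593]) (.n .e (.n (.l 0 [849]) (.l 0 [1873])))) (.n (.n .e (.n (.l 0 [721]) (.l 0 [1745]))) (.n (.l 0 [465]) (.n (.n (.l 0 [977]) (.l 0 [3025])) (.n (.l 0 [2001]) (.l 0 [979,2004,3026]))))))) (.n (.n (.n (.n (.l 0 [49]) (.l 0 [561])) (.n .e (.n (.l 0 [817]) (.l 0 [1841])))) (.n (.n (.l 0 [177]) (.n (.n (.l 0 [689])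 (.l 0 [2737])) (.l 0 [1713]))) (.n (.n (.l 0 [433]) (.l 0 [1457])) (.n (.n (.n (.l 0 [945]) (.l 0 [947,1972,2995])) (.l 0 [2993])) (.n (.n (.l 0 [1969]) (.l 0 [945,1972])) (.l 0 [946,1970,2995])))))) (.n (.n (.n (.l 0 [113]) (.n (.l 0 [625]) (.l 0 [1649]))) (.n (.l 0 [369]) (.n (.n (.l 0 [881]) (.l 0 [2929])) (.l 0 [1905])))) (.n (.n (.n (.l 0 [241]) (.l 0 [1265])) (.n (.n (.n (.l 0 [753]) (.l 0 [754,1777,2804])) (.l 0 [1777])) (.l 1 [2801]))) (.n (.l 0 [497]) (.l 2 [1009])))))) .e) (.n (.n (.n (.n (.n (.l 1 [1561]) (.n (.l 0 [1305]) (.n (.l 0 [3865]) (.l 0 [4889])))) (.n (.n (.l 0 [1177]) (.n (.l 1 [3737]) (.l 0 [2713]))) (.n (.n (.n (.l 0 [3481]) (.l 0 [5529])) (.l 0 [4505])) (.n (.n (.l 0 [924,1946,2972]) (.n (.l 0 [924,1946,2970]) (.l 0 [922,1947,2972]))) (.n (.n (.l 0 [921,1946,2972]) (.l 0 [921,1945,2970])) (.l 0 [2971]))))))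 (.n (.n (.n (.l 0 [89]) (.n (.n (.l 0 [2649]) (.l 0 [4697])) (.l 0 [3673]))) (.n (.n (.l 0 [1369]) (.l 0 [2393])) (.n (.n (.n (.l 0 [857,1883]) (.l 0 [860,1884])) (.l 0 [860,1881,2905])) (.n (.l 0 [857]) (.l 0 [859,2905]))))) (.n (.n (.n (.l 0 [1241]) (.l 0 [2265])) (.n (.n (.n (.l 0 [732,1754]) (.l 0 [732,1756])) (.n (.l 0 [729]) (.l 0 [731,1754]))) (.n (.n (.l 0 [729]) (.l 0 [1753])) (.l 0 [730,1753])))) (.n (.n (.n (.l 0 [1497]) (.l 0 [1499])) (.n (.l 0 [2521]) (.l 0 [473,1497,2522]))) (.n (.n (.l 0 [988]) (.l 0 [986])) (.l 0 [985])))))) (.n (.n (.n (.n (.l 0 [1081]) (.n (.n (.l 0 [3641]) (.l 0 [572,1593,2620])) (.l 0 [569,2619,3644]))) (.n (.n (.l 0 [2361]) (.l 0 [3385])) (.n (.l 1 [1849]) (.n (.l 0 [828,1851]) (.l 0 [827,1850]))))) (.n (.n (.n (.n (.l 0 [3257]) (.l 0 [4281])) (.l 0 [186,1209,2234,3260])) (.n (.n (.l 0 [699,1723])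 (.l 0 [698,1722])) (.n (.l 0 [1724]) (.l 0 [700,1722])))) (.n (.n (.n (.n (.l 0 [441,1466,2491]) (.l 0 [441,2490])) (.l 0 [442,1465,2492])) (.n (.n (.l 0 [441,1466,2489]) (.l 0 [1467])) (.l 0 [443,1466,2490]))) (.n (.l 0 [953]) (.l 0 [953]))))) (.n (.n (.n (.n (.n (.l 0 [2169]) (.l 0 [4217])) (.l 0 [3193])) (.n (.n (.n (.n (.l 0 [2681]) (.l 0 [634,1657,2681])) .e) (.n (.l 0 [635,1659,2684]) (.l 0 [633,1660,2682]))) (.n (.n (.l 0 [1660]) (.l 0 [2682])) (.n (.l 0 [636,1658,2683]) (.l 0 [633,1657,2682]))))) (.n (.n (.n (.l 0 [2425]) (.l 0 [378,1401,2427])) (.n (.l 0 [379,1402]) (.l 0 [379,1402,2425]))) (.n (.n (.l 0 [891]) (.l 0 [890])) (.l 0 [889])))) (.n (.n (.n (.n (.n (.l 0 [1273]) (.l 0 [250,1275,2298])) (.l 0 [1275])) (.n (.n (.l 0 [2297]) (.l 0 [1274])) (.l 0 [250]))) (.n (.l 0 [761]) (.l 0 [763]))) (.n (.l 1 [506]) (.l 0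 [1020])))))) .e))
def r3 : Tr (List ℕ) := (.n (.n (.n (.n (.n (.n (.l 1 [537,1564]) (.n (.l 0 [2329]) (.l 0 [5913]))) (.n (.l 1 [1692,2715]) (.n (.l 0 [6553]) (.n (.n (.l 0 [923,2969]) (.l 0 [1948])) (.l 0 [924,1948,2972]))))) (.n (.n (.n (.l 0 [1113]) (.l 0 [1625,2650,3674,4698])) (.n .e (.n (.l 0 [860,1883,2906]) (.l 0 [857,2906])))) (.n (.n .e (.n (.l 0 [731,1754]) (.l 0 [732,1755]))) (.n (.l 0 [476,1498,2524]) (.n (.l 1 [987]) (.n (.l 0 [987]) (.l 0 [987]))))))) (.n (.n (.n (.n (.l 0 [2105]) (.l 0 [571,2619,3641])) (.n .e (.n (.l 0 [827]) (.l 0 [1849])))) (.n (.n (.l 0 [5305]) (.n (.n (.l 0 [699,1723]) (.l 0 [700])) (.l 0 [1722]))) (.n (.n (.l 0 [441,2489]) (.l 0 [443,1465,2489])) (.n (.n (.l 1 [954]) (.l 0 [953])) (.l 0 [955]))))) (.n (.n (.n (.l 0 [5241]) (.n (.l 0 [636,1658,2682]) (.l 0 [636,1657,2681]))) (.n (.l 0 [377])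 (.n (.n (.l 0 [890]) (.l 0 [890])) (.l 0 [891])))) (.n (.n (.n (.l 0 [251,1276,2298]) (.l 0 [1273,2299])) (.n (.n (.l 1 [762]) (.l 0 [762])) (.l 1 [762]))) (.n (.n (.l 0 [508]) (.l 0 [505])) (.n (.n (.l 0 [1019]) (.l 0 [1018])) (.l 0 [1017]))))))) .e) .e)
def r4 : Tr (List ℕ) := (.n (.n (.n (.n (.n (.n (.l 1 [545]) (.l 1 [801])) (.n (.n (.l 0 [161]) (.l 0 [673])) (.n (.l 0 [417]) (.n (.n (.l 0 [929]) (.l 0 [2977])) (.l 0 [1953]))))) (.n (.n (.n (.l 0 [97]) (.l 0 [609])) (.n .e (.n (.l 0 [865]) (.l 0 [1889])))) (.n (.n .e (.n (.l 0 [737]) (.l 0 [1761]))) (.n (.l 0 [481]) (.n (.l 0 [993]) (.n (.l 0 [2017]) (.l 0 [3041]))))))) .e) (.n (.n (.n (.n (.l 1 [1585]) (.n (.l 0 [305]) (.n (.n (.l 0 [2865]) (.l 0 [4913])) (.l 0 [3889])))) (.n (.n (.l 0 [1201]) (.n (.l 0 [3761]) (.l 0 [4785]))) (.n (.n (.n (.l 0 [2481]) (.l 0 [4529])) (.l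 0 [3505])) (.n (.n (.n (.n (.l 0 [1970,2993]) (.l 0 [947,1972,2996])) (.l 0 [947,1970])) (.n (.l 0 [946,1972,2994]) (.l 0 [945,1970,2995]))) (.n (.n (.l 0 [946,2995]) (.l 0 [945,1969,2996])) (.n (.l 0 [945,1970,2996]) (.l 0 [946,1971,2994]))))))) (.n (.n (.n .e (.n (.l 0 [2673]) (.l 0 [3697]))) (.n (.l 0 [369]) (.n (.n (.l 0 [881,1908,2929]) (.l 0 [882,1907,2932])) (.n (.l 0 [881,1908]) (.l 0 [882,1905,2930]))))) (.n (.n (.l 0 [2289]) (.n (.l 1 [754,1777,2801]) (.l 0 [756,1780,2802]))) (.n (.l 0 [1521]) (.n (.n (.l 0 [1010]) (.l 0 [1009])) (.l 0 [1010])))))) .e)) (.n (.n (.n (.n (.n (.l 1 [1577]) (.n (.l 0 [297]) (.n (.l 0 [2857]) (.l 0 [811,1835,2858])))) (.n (.n (.l 0 [1193]) (.n (.n (.l 0 [2729]) (.l 0 [682,1707,2732,3754])) (.l 0 [3753]))) (.n (.n (.n (.l 0 [2473]) (.l 0 [3497])) .e) (.n (.n (.n (.l 0 [939,1964]) (.l 0 [1962]))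 (.n (.l 0 [1964]) (.l 0 [940]))) (.n (.n (.l 0 [938]) (.l 0 [937,1964])) (.l 0 [940])))))) (.n (.n (.n (.l 0 [1129]) (.n (.n (.l 0 [2665]) (.l 0 [4713])) (.l 0 [3689]))) (.n (.n (.l 0 [1385]) (.l 0 [2409])) (.n (.n (.n (.l 0 [875,1899]) (.l 0 [874,1897,2921])) (.l 0 [876,1898,2921])) (.n (.l 0 [1897,2923]) (.l 0 [874,1897,2922]))))) (.n (.n (.n (.l 0 [2281]) (.l 0 [3305])) (.n (.n (.n (.l 0 [748,1770]) (.l 0 [746,1769,2796])) (.n (.l 0 [746,1769,2795]) (.l 0 [745,1769,2796]))) (.n (.n (.l 0 [2793]) (.l 0 [748,1770])) (.l 0 [748,1770,2796])))) (.n (.n (.n (.l 0 [2537]) (.l 0 [489,1516,2538])) (.n (.l 0 [491,2538]) (.l 0 [490,1516]))) (.n (.n (.l 0 [1003]) (.l 0 [1003])) (.l 0 [1001])))))) .e) (.n (.n (.n (.n (.n .e (.n (.l 0 [570,1594,2619,3642]) (.l 0 [1595,2617,3643]))) (.n (.n (.n (.l 0 [4409]) (.l 0 [314,1337,2364,3388,4409,5436]))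 (.l 0 [5433])) (.n (.n (.n (.l 0 [1849]) (.l 0 [827,1849])) (.l 0 [827,1852])) (.n (.n (.l 0 [825]) (.l 0 [826])) .e)))) (.n (.n (.n (.l 0 [6329]) (.l 0 [1209,3260,4284,5308])) (.n (.n (.l 0 [700,1721]) (.l 0 [699,1722])) (.n (.l 0 [699]) (.l 0 [699])))) (.n (.n (.n (.n (.n (.l 0 [1465]) (.l 0 [441,1466])) (.l 0 [441,1465,2491])) (.n (.l 0 [1468,2490]) (.l 0 [444,1465,2490]))) (.n (.n (.l 0 [443,1466,2489]) (.l 0 [1465,2489])) (.n (.l 0 [443,1468,2490]) (.l 0 [444,2490])))) (.n (.n (.l 0 [953]) (.l 0 [953])) (.l 0 [954]))))) (.n (.n (.n (.n (.l 0 [6265]) (.l 0 [121,3196,4220,5244,6268])) (.n (.n (.n (.l 0 [635,2681]) (.l 0 [1660])) (.l 0 [634,1657,2683])) (.n (.l 0 [2683]) (.l 0 [1659,2681])))) (.n (.n (.n (.l 0 [378,1402,2428]) (.l 0 [377,1404,2426])) (.n (.l 0 [379,1404,2427]) (.l 0 [379,1401,2427]))) (.n (.n (.l 0 [890]) (.l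 0 [891])) (.l 0 [891])))) (.n (.n (.n (.n (.l 0 [252,1274,2300]) (.l 0 [249,2299])) (.l 0 [251])) (.n (.l 0 [761]) (.l 0 [764]))) (.n (.l 1 [508]) (.l 0 [1019]))))) .e)))
def r5 : Tr (List ℕ) := (.n (.n (.n (.n (.n (.n (.l 1 [2601]) (.n (.l 0 [1321]) (.l 0 [3881]))) (.n (.n (.l 0 [2217]) (.l 0 [1705,2732])) (.n (.l 0 [4521]) (.n (.n (.l 0 [937,1964]) (.l 0 [940,1962])) (.l 0 [940,1961]))))) (.n (.n (.n (.l 0 [2153]) (.l 0 [5737])) (.n .e (.n (.l 0 [873]) (.l 0 [1897,2924])))) (.n (.n .e (.n (.l 0 [747,1772,2794]) (.l 0 [747,2794]))) (.n (.l 0 [2539]) (.n (.n (.l 0 [1003]) (.l 0 [1003])) (.n (.l 0 [1002]) (.l 0 [1001]))))))) .e) (.n (.n (.n (.n (.l 1 [569,1595,2618,3643]) (.n (.l 0 [316,1340,4412]) (.n (.n (.l 0 [825,1851]) (.l 0 [1851])) (.l 0 [826,1849])))) (.n (.n (.l 0 [188,1212,2235,3258]) (.n (.l 0 [698,1724]) (.l 0 [698,1724])))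 (.n (.n (.n (.l 0 [2492]) (.l 0 [441,1467,2491])) (.l 0 [441,1468,2489])) (.n (.n (.l 2 [955]) (.n (.l 0 [954]) (.l 0 [953]))) (.n (.n (.l 0 [955]) (.l 0 [954])) (.l 1 [955])))))) (.n (.n (.n .e (.n (.l 0 [635,1659,2684]) (.l 0 [636,1657,2682]))) (.n (.l 0 [379,2427]) (.n (.n (.l 0 [889]) (.l 0 [890])) (.n (.l 0 [889]) (.l 0 [890]))))) (.n (.n (.l 0 [250,2299]) (.n (.n (.l 0 [763]) (.l 0 [761])) (.l 0 [763]))) (.n (.l 0 [506]) (.n (.n (.l 0 [1019]) (.l 0 [1018])) (.l 0 [1018])))))) .e)) .e)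
def r6 : Tr (List ℕ) := (.n (.n (.n (.n (.n (.n (.l 1 [2609]) (.n (.l 0 [1329]) (.l 0 [5937]))) (.n (.n (.l 0 [2225]) (.l 0 [5809])) (.n (.l 0 [5553]) (.n (.n (.l 0 [946,1972,2994]) (.l 0 [948,1970,2996])) (.l 0 [945,1970]))))) (.n (.n (.n (.l 0 [1137]) (.l 0 [4721])) (.n .e (.n (.l 0 [1905]) (.l 0 [881,1908,2931])))) (.n (.n .e (.n (.l 0 [755,1779,2801]) (.l 0 [755,2802]))) (.n (.l 0 [497,1523]) (.n (.n (.l 0 [1010]) (.l 0 [1009])) (.n (.l 0 [1010]) (.l 0 [1009]))))))) .e) .e) (.n (.n (.n (.n (.n (.l 1 [572,1593,2620,3643]) (.n (.l 0 [313,3388,5436]) (.n (.l 0 [827,1849]) (.l 0 [826])))) (.n (.n (.l 0 [186,2233,5305,6332]) (.n (.n (.l 0 [698,1723]) (.l 0 [698,1721])) (.l 0 [699,1723]))) (.n (.n (.n (.l 0 [442,1467,2490]) (.l 0 [441,1467,2490])) (.l 0 [1466])) (.n (.n (.l 0 [955]) (.n (.l 0 [954]) (.l 0 [954]))) (.n (.l 1 [956])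 (.l 0 [955])))))) (.n (.n (.n (.l 0 [121,1148,2169,4220,6268]) (.n (.n (.l 0 [634,1658,2681]) (.l 0 [633,1657,2684])) (.l 0 [634,1658,2684]))) (.n (.n (.l 0 [378,1404,2425]) (.l 0 [379,1402,2425])) (.n (.l 1 [891]) (.n (.l 0 [892]) (.l 0 [889]))))) (.n (.n (.n (.l 0 [249,1273,2300]) (.l 0 [249,1276,2298])) (.n (.n (.n (.l 0 [764]) (.l 0 [761])) (.l 0 [761])) (.n (.l 0 [763]) (.l 0 [763])))) (.n (.n (.n (.l 0 [507]) (.l 0 [505])) (.n (.l 0 [505]) (.l 0 [506]))) (.l 1 [1018]))))) .e) .e))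
def r7 : Tr (List ℕ) := (.n (.n (.n (.n (.n (.n (.l 1 [570,1595,2619,3644]) (.n (.l 0 [316,3385,5433]) (.l 0 [827,1849]))) (.n (.n (.l 0 [3260]) (.l 0 [697,1723])) (.n (.l 0 [1467]) (.l 2 [953])))) (.n (.n (.n (.l 0 [4217,5241,6265]) (.l 0 [633,1659,2681])) (.l 1 [892])) (.n (.n .e (.n (.l 0 [762]) (.l 0 [761]))) (.n (.l 0 [505]) (.n (.l 1 [1018]) (.l 1 [1017])))))) .e) .e) .e)
def r8 : Tr (List ℕ) := (.n (.n (.n (.n (.n (.n (.l 1 [577]) (.l 1 [833])) (.n (.l 1 [705]) (.n (.l 0 [449]) (.n (.n (.l 0 [961]) (.l 0 [3009])) (.l 0 [1985]))))) .e) (.n (.n (.n (.l 1 [1633]) (.n .e (.n (.l 0 [2913]) (.l 0 [865,1892,2913])))) (.n (.n (.l 0 [225]) (.n (.n (.l 0 [2785]) (.l 0 [4833])) (.l 0 [3809]))) (.n (.n (.l 0 [1505]) (.l 0 [481,1505])) (.n (.n (.n (.l 0 [3044]) (.l 0 [994,2019,3043])) (.l 0 [993,2018,3042])) (.n (.l 1 [995,2020]) (.l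 0 [995,2017,3043])))))) .e)) (.n (.n (.n (.n (.l 1 [1617]) (.n (.l 0 [337]) (.n (.n (.l 0 [2897]) (.l 0 [849,1873,2900,3924])) (.l 0 [3921])))) (.n (.n (.l 0 [209]) (.n (.l 0 [723,1747]) (.l 0 [2769]))) (.n (.n (.n (.l 0 [468]) (.l 0 [465])) (.l 0 [465])) (.n (.n (.n (.n (.l 0 [977,2003]) (.l 0 [980,2003,3028])) (.l 0 [979,2001,3025])) (.n (.l 0 [980,3025]) (.l 0 [980,2002]))) (.n (.n (.l 0 [2004]) (.l 0 [977,3025])) (.n (.l 0 [980,2004,3026]) (.l 0 [978,3025]))))))) .e) (.n (.n (.n (.n .e (.n (.n (.l 0 [628,1649,3697,4721]) (.l 0 [625,1649,3700,4724,5748])) (.l 0 [5745]))) (.n (.n (.l 0 [1393]) (.l 0 [372,1396])) (.n (.n (.l 1 [1908,2930]) (.l 0 [1908,2931])) (.n (.n (.l 0 [883,1906]) (.l 0 [884,1906,2932])) (.l 0 [2930]))))) (.n (.n (.n (.n (.l 0 [1268,2289]) (.l 0 [241,1265,2292])) (.l 0 [1268])) (.n (.n (.n (.l 0 [753,1777,2802])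 (.l 0 [753,1777,2803])) (.n (.l 0 [1777,2803]) (.l 0 [754,1777,2801]))) (.n (.n (.l 0 [755,2804]) (.l 0 [755,1779,2803])) (.l 0 [755,1779])))) (.n (.n (.n (.n (.l 0 [498,1522]) (.l 0 [499,1522,2546])) (.n (.l 0 [498,1523,2547]) (.l 0 [499,1521,2546]))) (.n (.n (.l 0 [2545]) (.l 0 [499,2546])) (.l 0 [500,1521,2546]))) (.n (.l 1 [1009]) (.l 0 [1009]))))) .e))) (.n (.n (.n (.n (.n (.l 1 [1609]) (.n (.l 0 [329]) (.l 1 [2889]))) (.n (.n (.l 0 [201]) (.n (.n (.l 0 [2761]) (.l 0 [4809])) (.l 0 [3785]))) (.n (.n (.n (.l 0 [1481]) (.l 0 [3529])) (.l 0 [2505])) (.n (.n (.n (.l 0 [971,1996,3020]) (.l 0 [970,1994,3020])) (.n (.l 0 [1995,3020]) (.l 0 [972,3020]))) (.n (.n (.l 0 [1995,3020]) (.l 0 [972,1993,3020])) (.l 0 [971,1996,3018])))))) .e) (.n (.n (.n (.n .e (.n (.n (.l 0 [6761]) (.l 0 [8809])) (.l 0 [7785]))) (.n (.n (.l 0 [3433])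 (.l 0 [1388,2412,3436])) (.n (.n (.l 0 [1900,2921]) (.l 0 [875,2922])) (.n (.l 0 [1898]) (.l 0 [1898,2924]))))) (.n (.n (.n (.n (.l 0 [4329]) (.l 0 [5353])) (.l 0 [233,3308])) (.n (.n (.l 0 [747,2795]) (.l 0 [746,1772])) (.n (.l 0 [748,1771,2793]) (.l 0 [1771,2796])))) (.n (.n (.n (.n (.l 0 [492,1515,2537]) (.l 0 [489,1514,2540])) (.l 0 [489,1516,2538])) (.n (.n (.l 0 [1515,2537]) (.l 0 [490,1516,2540])) (.l 0 [492,1515,2539]))) (.n (.l 0 [1004]) (.l 0 [1003]))))) .e)) (.n (.n (.n (.n (.n .e (.n (.l 0 [603,1625,2650,3676,4700]) (.l 0 [2651,3675,4698]))) (.n (.n (.n (.l 0 [3417]) (.l 0 [345,1372,3417])) (.l 0 [345,2396])) (.n (.n (.n (.l 0 [1881,2905]) (.l 0 [1882])) (.l 0 [1882,2907])) (.n (.l 0 [858,1882,2908]) (.l 0 [859,1882,2907]))))) (.n (.n (.n (.l 0 [220,1241]) (.l 0 [217,2268])) (.n (.n (.l 0 [731,1753]) (.l 0 [730,1753]))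 (.n (.l 0 [731,1755]) (.l 0 [732,1754])))) (.n (.n (.n (.n (.n (.l 0 [474,1498]) (.l 0 [474,1499,2524])) (.l 0 [473,1498])) (.l 1 [474,1500])) (.n (.n (.l 0 [475,2522]) (.l 0 [473,1497,2521])) (.n (.l 0 [1500,2522]) (.l 0 [1499,2524])))) (.l 1 [987])))) .e) (.n (.n (.n (.n (.n (.l 1 [1148,2169,6268]) (.l 0 [1148,3193,5241])) (.n (.n (.l 0 [636,1660,2684]) (.l 0 [635,1659,2681])) (.n (.l 0 [634,1659]) (.l 0 [635,1659,2683])))) (.n (.n (.n (.n (.l 0 [379,2428]) (.l 0 [380,1404,2426])) (.l 0 [379,2427])) (.n (.n (.l 0 [378,1404,2425]) (.l 0 [379,1402,2428])) (.l 0 [1403,2425]))) (.l 1 [890]))) (.n (.n (.n (.n (.n (.l 0 [252,1275,2297]) (.l 0 [252,1276,2298])) (.n (.l 0 [251,1275,2299]) (.l 0 [1276,2299]))) (.n (.n (.l 0 [251,1273,2299]) (.l 0 [251,2298])) (.l 0 [249,1273,2299]))) (.l 1 [761])) (.n (.n (.n (.l 0 [505]) (.l 0 [506]))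 (.l 0 [508])) (.l 0 [1018])))) .e))))
def r9 : Tr (List ℕ) := (.n (.n (.n (.n (.n (.n (.l 1 [2633]) (.n (.l 0 [1353]) (.l 0 [3913]))) (.n (.n (.l 0 [1225]) (.l 0 [5833])) (.n (.l 0 [460,1484]) (.n (.n (.l 0 [972,1994,3018]) (.l 0 [969])) (.l 0 [970,1995,3018]))))) .e) (.n (.n (.n (.l 1 [617,1641,3692,4716,5740,7788,8812]) (.n .e (.n (.l 0 [1898,2923]) (.l 0 [874,1900])))) (.n (.n (.l 0 [2284,5356]) (.n (.n (.l 0 [745,1769,2796]) (.l 0 [746,1772])) (.l 0 [747,1770,2793]))) (.n (.n (.l 0 [492,2538]) (.l 0 [489,1513,2539])) (.n (.n (.l 1 [1004]) (.l 0 [1002])) (.n (.n (.l 0 [1001]) (.l 0 [1002])) .e))))) .e)) (.n (.n (.n (.n (.l 1 [603,1628,2649,3675,4699]) (.n (.l 0 [348,3420]) (.n (.n (.l 0 [857]) (.l 0 [859,1882,2908])) (.l 0 [1884,2905])))) (.n (.n (.l 0 [1244]) (.n (.l 0 [730]) (.l 0 [1753]))) (.n (.n (.n (.l 0 [476,1497,2524])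 (.l 0 [476,1499,2524])) (.l 0 [475,1499])) (.n (.n (.n (.n (.l 0 [985]) (.l 0 [988])) (.l 0 [986])) (.l 1 [986])) (.n (.n (.l 0 [987]) (.l 0 [985])) (.n (.l 0 [988]) (.l 0 [987]))))))) .e) (.n (.n (.n (.n .e (.n (.n (.l 0 [1659]) (.l 0 [636,1659])) (.l 0 [636,1660,2683]))) (.n (.n (.l 0 [1402,2425]) (.l 0 [380,1403,2427])) (.n (.n (.n (.l 0 [890]) (.l 0 [891])) .e) (.n (.n (.l 0 [891]) (.l 0 [889])) (.l 0 [890]))))) (.n (.n (.n (.n (.l 0 [249,1274,2297]) (.l 0 [250,1273,2299])) (.l 0 [250,1273,2298])) (.n (.n (.l 0 [761]) (.n (.l 0 [761]) (.l 0 [763]))) (.n (.n (.l 0 [763]) (.l 0 [761])) (.l 0 [761])))) (.n (.n (.n (.n (.l 0 [505]) (.l 0 [506])) (.l 0 [507])) (.n (.n (.l 0 [505]) (.l 0 [507])) (.l 0 [507]))) (.n (.n (.l 0 [1019]) (.l 0 [1019])) (.l 0 [1018]))))) .e))) .e)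
def r11 : Tr (List ℕ) := (.n (.n (.n (.n (.n (.n (.l 1 [603,3673,4698]) (.n (.l 0 [1372,3417]) (.l 0 [857,1883,2908]))) (.n (.n (.l 0 [220]) (.l 0 [732,1756])) (.n (.l 0 [475]) (.n (.n (.l 0 [985]) (.l 0 [985])) (.l 0 [988]))))) .e) (.n (.n (.n (.l 1 [636,1660,2681]) (.n .e (.n (.l 0 [890]) (.l 0 [892])))) (.n (.n (.l 0 [252,1273,2298]) (.l 2 [764])) (.n (.n (.l 0 [508]) (.l 0 [507])) (.n (.n (.n (.l 0 [1019]) (.l 0 [1017])) (.l 0 [1020])) (.n (.l 1 [1019]) (.l 0 [1019])))))) .e)) .e) .e)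
def r12 : Tr (List ℕ) := (.n (.n (.n (.n (.n (.n (.l 1 [609,1636]) (.n (.l 0 [353]) (.l 0 [866,1892,2916]))) (.n (.n (.l 0 [1249]) (.l 0 [1761,2786,3810,4834])) (.n (.l 0 [484,1508]) (.n (.n (.l 0 [995]) (.l 0 [994,3044])) (.l 0 [994,3044]))))) .e) .e) (.n (.n (.n (.n (.l 1 [625,2673,3700,4724,5748]) (.n (.l 0 [372,1396]) (.n (.n (.l 0 [1905,2932]) (.l 0 [1907,2932])) (.l 0 [1906])))) (.n (.n (.l 0 [1265,2292]) (.n (.l 0 [755,1778,2803]) (.l 0 [753,1778,2801]))) (.n (.n (.n (.l 0 [499,1521,2546]) (.l 0 [497,1523,2545])) (.l 0 [497,1524,2547])) (.n (.n (.l 0 [1012]) (.l 1 [1010])) (.n (.l 0 [1012]) (.n (.l 0 [1011]) (.l 0 [1011]))))))) .e) .e)) (.n (.n (.n (.n (.n (.l 1 [620,2665,3689,5737,6764,8809]) (.n (.l 0 [364,2412,3436]) (.n (.l 0 [874,1898,2923]) (.l 0 [1900,2924])))) (.n (.n (.l 0 [236,1260,2281,4332,5353]) (.n (.n (.l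 0 [746,1772,2795]) (.l 0 [747,2793])) (.l 0 [747,1771,2796]))) (.n (.n (.n (.l 0 [489,1516,2540]) (.l 0 [491,1515,2540])) (.l 0 [491,1514,2539])) (.n (.n (.l 0 [1003]) (.n (.l 0 [1004]) (.l 0 [1001]))) (.l 2 [1004]))))) .e) .e) (.n (.n (.n (.n (.n .e (.n (.l 0 [1660,2682]) (.l 0 [635,1658,2683]))) (.n (.n (.n (.l 0 [378,2428]) (.l 0 [378,1402,2426])) (.l 0 [1402,2425])) (.n (.n (.n (.l 0 [892]) (.l 0 [892])) (.l 0 [892])) (.n (.n (.l 0 [891]) (.l 0 [892])) (.l 0 [892]))))) (.n (.n (.n (.l 0 [249,1273,2297]) (.l 0 [252,1276,2300])) (.n (.l 0 [762]) (.n (.l 0 [763]) (.l 0 [762])))) (.n (.n (.n (.l 0 [506]) (.n (.l 0 [505]) (.l 0 [506]))) (.l 0 [508])) (.n (.n (.l 0 [1018]) (.l 0 [1020])) (.l 0 [1020]))))) .e) .e)))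
def r13 : Tr (List ℕ) := (.n (.n (.n (.n (.n (.n (.l 1 [1644,4713,5737,7785]) (.n (.l 0 [2409,3433]) (.l 0 [873,1897,2923]))) (.n (.l 1 [745,1772,2794]) (.n (.l 0 [491,1515,2538]) (.l 2 [1001])))) .e) .e) (.n (.n (.n (.n (.l 1 [635,1658,2683]) (.n (.l 0 [378,2427]) (.n (.l 0 [891]) (.l 0 [889])))) (.n (.n (.l 0 [1276,2297]) (.n (.l 0 [762]) (.l 0 [763]))) (.n (.n (.n (.l 0 [508]) (.l 0 [505])) .e) (.n (.n (.n (.n (.l 0 [1017]) (.l 0 [1019])) (.l 0 [1019])) (.l 1 [1020])) (.n (.n (.l 0 [1019]) (.l 0 [1017])) (.n (.l 0 [1017]) (.l 0 [1017]))))))) .e) .e)) .e)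
def r14 : Tr (List ℕ) := (.n (.n (.n (.n (.n (.n (.l 1 [1652,4721,5745]) (.n (.l 0 [1393]) (.l 0 [2930]))) (.n (.n (.l 0 [244,1268]) (.l 0 [753,2801])) (.n (.l 0 [499,1521,2547]) (.l 0 [1009])))) .e) .e) .e) (.n (.n (.n (.n (.n (.l 1 [636,1658,2682]) (.n (.l 0 [378,1404,2428]) (.l 0 [890]))) (.n (.n (.l 0 [251,1273]) (.n (.n (.l 0 [762]) (.l 0 [762])) (.l 0 [761]))) (.n (.n (.n (.l 0 [505]) (.l 0 [506])) (.l 0 [506])) (.n (.n (.l 0 [1017]) (.l 0 [1019])) (.n (.n (.l 0 [1018]) (.l 0 [1019])) .e))))) .e) .e) .e))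
def r15 : Tr (List ℕ) := (.n (.n (.n (.n (.n (.n (.l 1 [635,1659,2681]) (.l 0 [378,1401])) (.n (.n (.l 0 [251,2298]) (.l 0 [764])) (.n .e (.n (.n (.l 0 [1018]) (.l 0 [1018])) (.l 0 [1017]))))) .e) .e) .e) .e)
def r16 : Tr (List ℕ) := (.n (.n (.n (.n (.n (.n (.l 1 [641]) (.n (.l 0 [385]) (.l 0 [897]))) .e) (.n (.n (.l 1 [1729]) (.n .e (.n (.l 0 [4033]) (.l 0 [961,1985,3009,4036])))) .e)) (.n (.n (.n (.l 1 [1697]) (.n .e (.n (.l 0 [4001]) (.l 0 [5025])))) .e) (.n (.n (.n .e (.n (.l 0 [738,4836]) (.l 0 [2787,3811,4834]))) (.n (.l 0 [481]) (.n (.n (.l 0 [995,3042]) (.l 0 [996,2017,3041])) (.l 0 [3042])))) .e))) (.n (.n (.n (.n (.l 1 [1681]) (.n (.l 0 [1425]) (.n (.n (.l 0 [3985]) (.l 0 [6033])) (.l 0 [5009])))) .e) (.n (.n (.n .e (.n (.l 0 [723,1746,2769]) (.l 0 [722,1747,2769]))) (.n (.l 0 [468]) (.n (.n (.l 0 [978,2003]) (.l 0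 [980,2002,3026])) (.n (.l 0 [978,2003,3027]) (.l 0 [980,3027]))))) .e)) (.n (.n (.n (.n .e (.n (.n (.l 0 [6833]) (.l 0 [689,1716,2740,3764,5810,6834])) (.l 0 [691,2737,4785,5812,6836]))) (.n (.n (.l 0 [6577]) (.l 0 [433,3508,4532,5556,6580])) (.n (.n (.n (.l 0 [946,1971]) (.l 0 [947,1969,2996])) (.l 0 [1972,2993])) (.n (.n (.l 0 [948,1972,2994]) (.l 0 [947,1971,2996])) (.l 0 [945,1972,2996]))))) .e) (.n (.n (.n .e (.n (.n (.n (.l 0 [754,1778,2801]) (.l 0 [755,2803])) (.l 0 [753,1778,2803])) (.n (.n (.l 0 [753,1777,2804]) (.l 0 [753,1777])) (.l 0 [755,1778,2803])))) (.n (.n (.l 0 [497,1522,2548]) (.l 0 [497,1523,2548])) (.l 2 [1010]))) .e)))) (.n (.n (.n (.n (.n (.l 1 [1673]) (.n (.l 0 [1417]) (.n (.l 0 [3977]) (.l 0 [5001])))) .e) (.n (.n (.n .e (.n (.n (.l 0 [6857]) (.l 0 [1737,2764,3788,5836,6857])) (.l 0 [1737,4812,5836])))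 (.n (.n (.l 0 [457,1481,3532]) (.l 0 [457,2508])) (.n (.n (.n (.l 0 [972,1994,3020]) (.l 0 [1996,3018])) (.l 0 [971,1995,3020])) (.n (.l 0 [970,1993]) (.l 0 [970,3018]))))) .e)) (.n (.n (.n (.n .e (.n (.l 0 [681,1705,2732,3753]) (.l 0 [683,1708,2732,3756]))) (.n (.n (.l 0 [5545]) (.l 0 [425,3500,4524,5548])) (.n (.n (.l 0 [1964]) (.l 0 [937,1961])) (.n (.l 0 [1963]) (.l 0 [937,1963]))))) .e) (.n (.n (.n (.n (.l 1 [236,1260,2281,3305,5353]) (.l 0 [1260,2281,4332])) (.n (.n (.n (.n (.l 0 [745,1770,2794]) (.l 0 [748,2793])) (.l 0 [1770,2794])) (.n (.l 0 [745,1772,2793]) (.l 0 [746,2793]))) (.n (.n (.l 0 [748,1772]) (.l 0 [745,1772,2793])) (.n (.l 0 [745,1771,2793]) (.l 0 [745,1771,2794]))))) (.n (.n (.n (.l 0 [492,1516,2539]) (.l 0 [489,1516,2538])) (.n (.l 0 [2540]) (.l 0 [492,1514]))) (.n (.n (.l 0 [1001]) (.l 0 [1001])) (.l 0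 [1001])))) .e))) (.n (.n (.n (.n (.n .e (.n (.l 0 [666,1691,3739]) (.l 0 [1690,2716,3740]))) (.n (.n (.n (.l 0 [7577]) (.l 0 [409,1433,2457,3484,4508,5532,6556])) (.l 0 [8601])) (.n (.n (.n (.l 0 [921,1948,2972]) (.l 0 [923,1946,2969])) (.l 0 [921,2971])) (.n (.n (.l 0 [924,1948,2972]) (.l 0 [923,1948])) (.l 0 [922,2971]))))) .e) (.n (.n (.n (.l 1 [220,1241,2265]) (.n (.n (.n (.l 0 [730,1755]) (.l 0 [1754])) (.l 0 [1756])) (.n (.l 0 [1754]) (.l 0 [1756])))) (.n (.n (.n (.l 0 [474,2522]) (.l 0 [476,1499,2523])) (.n (.l 0 [476]) (.l 0 [475,1497,2522]))) (.n (.l 1 [988]) (.l 0 [988])))) .e)) (.n (.n (.n (.n (.n (.l 1 [185,2233,4281,5305]) (.l 0 [186,1209,2233,3260,5305,6332])) (.n (.l 0 [700]) (.n (.l 0 [697]) (.l 0 [698,1723])))) (.n (.n (.n (.n (.l 0 [444]) (.l 0 [443,1468])) (.l 0 [441,1466,2491])) (.n (.n (.l 0 [444,1468,2490])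 (.l 0 [444,1466,2490])) (.l 0 [444,1467,2492]))) (.l 0 [953]))) .e) (.n (.n (.n (.n (.n (.l 1 [249,2300]) (.n (.l 0 [252,1273,2300]) (.l 0 [1274,2299]))) (.n (.n (.l 0 [250,1273,2300]) (.l 0 [251,1274,2297])) (.l 0 [249,1274]))) (.l 0 [763])) (.n (.n (.n (.l 0 [505]) (.l 0 [506])) (.l 0 [508])) (.l 0 [1019]))) .e)))))
def r17 : Tr (List ℕ) := (.n (.n (.n (.n (.n (.n (.l 1 [2697]) (.n (.l 0 [2441]) (.l 0 [6025]))) .e) (.n (.n (.l 1 [713,1740,2761,5833,6860]) (.n .e (.n (.l 0 [969,1993,3017]) (.l 0 [972,3019])))) .e)) (.n (.n (.n (.l 1 [681,1707,2731,3755]) (.n .e (.n (.l 0 [939]) (.l 0 [939,1964])))) .e) (.n (.n (.n .e (.n (.l 0 [745,2796]) (.l 0 [746,2794]))) (.n (.l 0 [2540]) (.l 0 [1001]))) .e))) (.n (.n (.n (.n (.l 1 [668,1692,2713,3737]) (.n (.l 0 [2460,3481,8604]) (.n (.n (.l 0 [923,1946,2972]) (.l 0 [921,1948,2969])) (.l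 0 [1945,2971])))) .e) (.n (.n (.n .e (.n (.l 0 [732,1753]) (.l 0 [729,1756]))) (.n (.l 0 [473,1499]) (.n (.l 1 [987]) (.n (.l 0 [988]) (.l 0 [986]))))) .e)) (.n (.n (.n (.n .e (.n (.n (.l 0 [699,1724]) (.l 0 [698])) (.l 0 [699,1722]))) (.n (.n (.l 0 [442,2491]) (.l 0 [444,1468,2491])) (.n (.n (.n (.l 0 [956]) (.l 0 [954])) (.l 0 [954])) (.n (.n (.l 0 [956]) (.l 0 [956])) (.l 0 [953]))))) .e) (.n (.n (.n (.l 1 [1275,2298]) (.n (.n (.n (.l 0 [762]) (.l 0 [764])) (.l 0 [761])) (.n (.n (.l 0 [761]) (.l 0 [763])) (.l 0 [764])))) (.n (.n (.l 0 [507]) (.l 0 [506])) (.n (.n (.l 0 [1017]) (.l 0 [1018])) (.l 0 [1018])))) .e)))) .e)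
def r18 : Tr (List ℕ) := (.n (.n (.n (.n (.n (.n (.l 1 [657,1684]) (.n (.l 0 [2449]) (.l 0 [7057]))) .e) (.n (.n (.l 1 [721,2772]) (.n .e (.n (.l 0 [978,2001,3027]) (.l 0 [977,2003,3025])))) .e)) (.n (.n (.n (.l 1 [690,1714,4788,5811,6836]) (.n .e (.n (.l 0 [945,1970,2996]) (.l 0 [947,1970,2996])))) .e) (.n (.n (.n .e (.n (.l 0 [1780,2804]) (.l 0 [755,1780]))) (.n (.l 0 [497,1524,2546]) (.n (.l 0 [1009]) (.l 0 [1012])))) .e))) .e) (.n (.n (.n (.n (.n (.l 1 [668,1690,3737]) (.n (.l 0 [409,5532,7580]) (.n (.l 0 [924,2972]) (.l 0 [921,2972])))) .e) (.n (.n (.n .e (.n (.n (.l 0 [730,1754]) (.l 0 [731,1753])) (.l 0 [730,1755]))) (.n (.n (.l 0 [475,2521]) (.l 0 [473,1497,2522])) (.n (.n (.n (.l 0 [987]) (.l 0 [985])) (.l 0 [986])) (.n (.l 0 [987]) (.l 0 [988]))))) .e)) (.n (.n (.n (.n .e (.n (.n (.l 0 [1723]) (.l 0 [699,1724])) (.l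 0 [698]))) (.n (.n (.l 0 [443,1466,2490]) (.l 0 [443,1467,2490])) (.n (.l 1 [954]) (.l 1 [953])))) .e) (.n (.n (.n (.n (.l 1 [249,1274,2300]) (.l 0 [250,1274,2297])) (.n (.n (.n (.l 0 [762]) (.l 0 [763])) (.n (.l 0 [764]) (.l 0 [763]))) (.n .e (.n (.l 0 [762]) (.l 0 [761]))))) (.n (.n (.l 1 [507]) (.l 1 [507])) (.n (.n (.l 0 [1019]) (.l 0 [1018])) (.l 0 [1020])))) .e))) .e))
def r19 : Tr (List ℕ) := (.n (.n (.n (.n (.n (.n (.l 1 [2714]) (.n (.l 0 [1436,5529,6553,8601]) (.l 0 [1948,2971]))) .e) (.n (.n (.l 1 [731,1753]) (.n .e (.n (.l 0 [988]) (.l 0 [987])))) .e)) (.n (.n (.n (.l 1 [699,1721]) (.l 1 [955])) .e) (.n (.n (.l 3 [763]) (.n (.l 0 [508]) (.n (.n (.l 0 [1017]) (.l 0 [1020])) (.l 0 [1018])))) .e))) .e) .e)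
def r20 : Tr (List ℕ) := (.n (.n (.n (.n (.n (.n (.l 1 [2721]) (.n (.l 0 [1441]) (.l 0 [6049]))) .e) (.n (.n (.l 1 [740,2787,3810,4835]) (.n .e (.n (.l 0 [993,3041]) (.l 0 [994,2017,3043])))) .e)) .e) (.n (.n (.n (.n (.l 1 [689,1715,2739,4785,5811,6833]) (.n (.l 0 [433,1460,2481,4532,6580]) (.n (.n (.l 0 [945,1970,2995]) (.l 0 [948,1972])) (.l 0 [948,1970])))) .e) (.n (.n (.n .e (.n (.l 0 [755,1777,2801]) (.l 0 [754,1780]))) (.n (.l 0 [500,2545]) (.n (.l 0 [1012]) (.n (.l 0 [1010]) (.l 0 [1009]))))) .e)) .e)) (.n (.n (.n (.n (.n (.l 1 [684,1708,2729]) (.n (.l 0 [425,1452,2473,3500,5548]) (.l 1 [940,1964]))) .e) (.n (.n (.n .e (.n (.n (.l 0 [746,1770,2793]) (.l 0 [748,1769,2795])) (.l 0 [746,1771,2796]))) (.n (.n (.l 0 [491,2539]) (.l 0 [489,1516,2539])) (.n (.n (.n (.l 0 [1004]) (.l 0 [1001])) .e) (.n (.l 0 [1003]) (.l 0 [1002])))))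 .e)) .e) (.n (.n (.n (.n (.n .e (.n (.l 0 [697,1723]) (.l 0 [1724]))) (.n (.n (.n (.l 0 [441,1466,2491]) (.l 0 [441,1468,2492])) (.l 0 [443,1468])) (.n (.n (.l 0 [954]) (.l 0 [953])) (.n (.n (.l 0 [953]) (.l 0 [956])) (.l 0 [954]))))) .e) (.n (.n (.n (.l 1 [251,1275,2297]) (.n (.n (.n (.l 0 [762]) (.l 0 [763])) (.l 0 [763])) (.n (.l 0 [763]) (.l 0 [763])))) (.n (.n (.n (.l 0 [506]) (.l 0 [505])) (.n (.l 0 [505]) (.l 0 [507]))) (.n (.n (.l 0 [1018]) (.l 0 [1020])) .e))) .e)) .e)))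
def r21 : Tr (List ℕ) := (.n (.n (.n (.n (.n (.n (.l 1 [1706,2730,3753]) (.n (.l 0 [3497,4521,5545]) (.l 0 [939,1962]))) .e) (.n (.n (.l 1 [746,1769,2793]) (.l 3 [1001])) .e)) .e) (.n (.n (.n (.n (.l 1 [700,1723]) (.n (.l 0 [442,1467,2490]) (.n (.n (.l 0 [954]) (.l 0 [953])) (.l 0 [953])))) .e) (.n (.n (.n .e (.n (.l 0 [764]) (.l 0 [762]))) (.n (.l 0 [505]) (.n (.l 0 [1017]) (.n (.l 0 [1020]) (.l 0 [1020]))))) .e)) .e)) .e)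
def r22 : Tr (List ℕ) := (.n (.n (.n (.n (.n (.n (.l 1 [691,1716,2737,3761,6836]) (.n (.l 0 [4529,5553,6577]) (.l 0 [945,1971,2995]))) .e) (.n (.n (.l 1 [754,1778,2803]) (.l 3 [1009])) .e)) .e) .e) (.n (.n (.n (.n (.n (.l 1 [700]) (.n (.l 0 [1465,2492]) (.n (.l 0 [956]) (.l 0 [955])))) .e) (.n (.n (.n .e (.n (.l 0 [763]) (.l 0 [761]))) (.n (.n (.l 0 [506]) (.l 0 [508])) (.n (.n (.l 0 [1018]) (.l 0 [1017])) (.n (.l 0 [1017]) (.l 0 [1020]))))) .e)) .e) .e))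
def r23 : Tr (List ℕ) := (.n (.n (.n (.n (.n (.n (.l 1 [697,1724]) (.n (.l 0 [442,1466]) (.l 0 [956]))) .e) (.n (.n (.l 1 [761]) (.n .e (.n (.l 0 [1019]) (.l 0 [1018])))) .e)) .e) .e) .e)
def r25 : Tr (List ℕ) := (.n (.n (.n (.n (.n (.n (.l 1 [3788,5836,6857]) (.n (.l 0 [457,1481,2508]) (.l 0 [970,1993]))) .e) .e) (.n (.n (.n (.l 1 [745,2793]) (.n .e (.n (.l 0 [1004]) (.l 0 [1003])))) .e) .e)) (.n (.n (.n (.n (.l 1 [731,1756]) (.n (.l 0 [476,1500,2523]) (.n (.n (.l 0 [987]) (.l 0 [987])) (.l 0 [986])))) .e) .e) (.n (.n (.n (.n .e (.n (.n (.l 0 [762]) (.l 0 [764])) (.l 0 [762]))) (.n (.l 1 [507]) (.n (.n (.n (.l 0 [1017]) (.l 0 [1019])) (.l 0 [1018])) (.n (.l 1 [1018]) (.l 0 [1018]))))) .e) .e))) .e)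
def r26 : Tr (List ℕ) := (.n (.n (.n (.n (.n (.n (.l 1 [723,1746]) (.n (.l 0 [468]) (.l 0 [979,2004,3027]))) .e) .e) (.n (.n (.n (.l 1 [756,2803]) (.n .e (.n (.l 0 [1012]) (.l 0 [1009])))) .e) .e)) .e) (.n (.n (.n (.n (.n (.l 1 [1753]) (.n (.l 0 [474,1498,2521]) (.l 1 [986]))) .e) .e) (.n (.n (.n (.n .e (.n (.l 1 [761]) (.l 0 [761]))) (.n (.l 0 [507]) (.n (.n (.l 0 [1019]) (.l 0 [1020])) (.n (.l 0 [1019]) (.l 0 [1020]))))) .e) .e)) .e))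
def r27 : Tr (List ℕ) := (.n (.n (.n (.n (.n (.n (.l 1 [729,1756]) (.n (.l 0 [476,1497,2523]) (.l 0 [988]))) .e) .e) (.n (.n (.n (.l 1 [761]) (.n .e (.n (.l 0 [1019]) (.l 0 [1017])))) .e) .e)) .e) .e)
def r28 : Tr (List ℕ) := (.n (.n (.n (.n (.n (.n (.l 1 [738,1764,2787,3810,4834]) (.n (.l 0 [481,1505]) (.l 0 [994,2020,3044]))) .e) .e) .e) (.n (.n (.n (.n (.l 1 [755,1780,2804]) (.n (.l 0 [498,1522,2548]) (.l 1 [1009]))) .e) .e) .e)) (.n (.n (.n (.n (.n (.l 1 [2795]) (.n (.l 0 [1516,2538]) (.l 0 [1003]))) .e) .e) .e) (.n (.n (.n (.n (.l 1 [764]) (.n (.n (.l 0 [508]) (.l 0 [505])) (.n (.n (.n (.l 0 [1020]) (.l 0 [1020])) .e) (.n (.n (.l 0 [1020]) (.l 0 [1020])) (.l 0 [1018]))))) .e) .e) .e)))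
def r29 : Tr (List ℕ) := (.n (.n (.n (.n (.n (.n .e (.n (.l 0 [489,2538]) (.l 0 [1001]))) .e) .e) .e) (.n (.n (.n (.n (.l 1 [761]) (.n .e (.n (.n (.l 0 [1020]) (.l 0 [1020])) (.l 0 [1018])))) .e) .e) .e)) .e)
def r30 : Tr (List ℕ) := (.n (.n (.n (.n (.n (.n (.l 1 [755,1780]) (.l 0 [499,1523,2546])) .e) .e) .e) .e) (.n (.n (.n (.n (.n (.l 1 [763]) (.n (.l 0 [507]) (.n (.l 0 [1017]) (.l 0 [1017])))) .e) .e) .e) .e))
def r31 : Tr (List ℕ) := (.n (.n (.n (.n (.n (.n (.l 1 [761]) (.n (.l 0 [507]) (.l 0 [1020]))) .e) .e) .e) .e) .e)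
def r32 : Tr (List ℕ) := (.n (.n (.n (.n (.n (.l 2 [769]) (.l 2 [1921])) (.n (.l 2 [1857]) (.n (.n .e (.n (.l 0 [961,1985,4036]) (.l 0 [3012,4033]))) .e))) (.n (.n (.l 2 [1825]) (.n (.n .e (.n (.n (.l 0 [2980,5025,6049]) (.l 0 [930,1953,2977,4002,5027,6051])) (.l 0 [932,2980,4003,5025,6049]))) .e)) (.n (.n (.n .e (.n (.l 0 [867,1891]) (.l 0 [867,1890,2913]))) .e) (.n (.n (.l 1 [1505]) (.n (.n (.n (.l 0 [993]) (.l 0 [995,2017,3042])) (.l 0 [996,2017])) (.n (.l 0 [993,2018,3044]) (.l 0 [995,3043])))) .e)))) (.n (.n (.n (.l 2 [1809]) (.n (.n .e (.n (.l 0 [8081]) (.l 0 [9105]))) .e)) (.n (.n (.n .e (.n (.l 0 [1876,2897,3921]) (.l 0 [852,2897,3921]))) .e) (.n (.n .e (.n (.n (.l 0 [980,2002,3027]) (.l 0 [979,2004,3026])) (.l 0 [2004,3028]))) .e))) (.n (.n (.n (.n .e (.n (.n (.l 0 [1844,3892,4914,5937]) (.l 0 [2868,3891,4914])) (.l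 0 [1841,4916,5940]))) .e) (.n (.n (.n (.l 1 [1460,2481,6580]) (.l 0 [1460,3505,5553])) (.n (.n (.n (.l 0 [947,2994]) (.l 0 [948,1972,2993])) (.n (.l 0 [1969,2993]) (.l 0 [1969,2995]))) (.n (.n (.l 0 [1970,2993]) (.l 0 [946,1971,2996])) (.l 0 [947,1970,2994])))) .e)) (.n (.n (.n (.l 1 [372,1396]) (.n (.n (.n (.l 0 [882,1906,2929]) (.l 0 [1906,2930])) (.l 0 [883,1905,2931])) (.n (.n (.l 0 [881,1907]) (.l 0 [883,1907])) (.l 0 [884,1907,2932])))) .e) (.n (.n (.n (.l 1 [497,1523,2546]) (.l 0 [500,1521,2548])) (.n (.l 0 [1012]) (.l 0 [1010]))) .e))))) (.n (.n (.n (.n (.l 2 [1801]) (.n (.n .e (.n (.n (.l 0 [2956,5001,6025]) (.l 0 [1930,3980,5002,6027,7049])) (.l 0 [7049]))) .e)) (.n (.n (.n .e (.n (.n (.l 0 [4937]) (.l 0 [1865,2892,3916,4937])) (.l 0 [1865,2889,3916]))) .e) (.n (.n (.l 1 [460,3529]) (.n (.n (.n (.l 0 [971,3020]) (.l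 0 [1996,3020])) (.n (.l 0 [969,1994,3020]) (.l 0 [969,1993,3017]))) (.n (.n (.l 0 [969,1996,3019]) (.l 0 [971,1994,3019])) (.l 0 [971,1996,3020])))) .e))) (.n (.n (.n (.n .e (.n (.n (.l 0 [1835,2859,3883]) (.l 0 [810,1833,3882])) (.l 0 [811,1836,2857,3884]))) .e) (.n (.n (.n (.l 1 [1452,2473,5548]) (.l 0 [1452,4521])) (.n (.n (.l 0 [939,1961]) (.l 0 [938])) (.l 0 [939,1963]))) .e)) (.n (.n (.n (.n (.l 1 [364,3436]) (.l 0 [364,1385])) (.n (.n (.n (.n (.l 0 [1899,2924]) (.l 0 [876,1899,2922])) (.l 0 [875,1899])) (.n (.l 0 [2923]) (.l 0 [874,1897,2922]))) (.n (.n (.l 0 [876,1899,2922]) (.l 0 [873,1899,2921])) (.n (.l 0 [875,1898]) (.l 0 [874,1899,2923]))))) .e) (.n (.n (.n (.n (.l 1 [492,1514,2539]) (.l 0 [491,1513,2540])) (.n (.n (.l 0 [492,1516,2540]) (.l 0 [489,1514,2539])) (.l 0 [491,1515]))) (.l 1 [1003])) .e)))) (.n (.n (.n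 (.n (.n .e (.n (.l 0 [793,1819,2842,4891,5915]) (.l 0 [1817,3868,4889,5916]))) .e) (.n (.n (.l 1 [2460,4505,6553,7580]) (.n (.n (.l 0 [924,1946,2969]) (.l 0 [922,1946,2971])) (.n (.l 0 [923,1945,2971]) (.l 0 [923,1947,2970])))) .e)) (.n (.n (.n (.l 1 [2393,3417]) (.n (.n (.n (.l 0 [857,1884,2907]) (.l 0 [857,2906])) (.l 0 [860,1883,2905])) (.n (.l 0 [857,1883,2906]) (.l 0 [858,1883,2905])))) .e) (.n (.n (.n (.l 1 [475,1497]) (.l 0 [474,2521])) (.l 0 [987])) .e))) (.n (.n (.n (.n (.n (.l 1 [313,4409,5436]) (.l 0 [1340,2361,4412])) (.n (.l 0 [826,1851]) (.n (.l 0 [826]) (.l 0 [826])))) .e) (.n (.n (.n (.n (.l 1 [444,1467]) (.n (.l 0 [442,1466,2489]) (.l 0 [441,1466,2491]))) (.n (.n (.l 0 [444,1467,2491]) (.l 0 [441,1467,2489])) (.l 0 [441,1467,2492]))) (.l 0 [955])) .e)) (.n (.n (.n (.n (.n (.l 1 [377,1403,2427]) (.n (.l 0 [380,1401,2425])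 (.l 0 [377,1401,2427]))) (.n (.n (.l 0 [377,1402]) (.l 0 [379,1402,2426])) (.l 0 [378,1404,2427]))) (.n (.n (.l 0 [890]) (.l 0 [889])) (.l 0 [892]))) .e) (.n (.n (.n (.l 1 [506]) (.l 0 [508])) (.l 0 [1018])) .e))))))
def r33 : Tr (List ℕ) := (.n (.n (.n (.n (.n (.l 2 [777,1804]) (.l 2 [905,1932,5003,6025,7051])) (.n (.l 2 [841,1868,3913,4940]) (.n (.n .e (.n (.l 0 [969,1996,3019]) (.l 0 [970,3019]))) .e))) (.n (.n (.l 2 [809,1833,2859,3883]) (.n (.n .e (.n (.n (.l 0 [939,1961]) (.l 0 [1961])) (.l 0 [1963]))) .e)) (.n (.n (.n .e (.n (.l 0 [874,1898,2923]) (.l 0 [873,2923]))) .e) (.n (.n (.l 1 [491,1515,2538]) (.n (.l 1 [1004]) (.n (.l 0 [1002]) (.l 0 [1004])))) .e)))) (.n (.n (.n (.l 2 [1819,2843,3868,4890,5913]) (.n (.n .e (.n (.l 0 [1947,2972]) (.l 0 [923,1948]))) .e)) (.n (.l 6 [858,1883,2906]) (.n (.n .e (.n (.n (.l 0 [986])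 (.l 0 [986])) .e)) .e))) (.n (.n (.n (.n .e (.n (.n (.l 0 [1851]) (.l 0 [826,1851])) (.l 0 [825,1852]))) .e) (.n (.n (.n (.l 1 [1465]) (.l 0 [441,1465,2491])) (.n (.n (.n (.l 0 [955]) (.l 0 [955])) (.l 1 [953])) (.l 2 [956]))) .e)) (.n (.n (.n (.l 1 [2428]) (.n (.n (.n (.l 0 [892]) (.l 0 [889])) (.l 0 [891])) (.n (.n (.l 0 [890]) (.l 0 [889])) (.l 0 [892])))) .e) (.n (.n (.n (.l 1 [505]) (.l 0 [505])) (.l 0 [1020])) .e))))) .e)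
def r34 : Tr (List ℕ) := (.n (.n (.n (.n (.n (.l 2 [2833]) (.l 2 [913,1937,5012,6036,7060,8084])) (.n (.l 2 [849,3924]) (.l 2 [979,2001,3028]))) (.n (.n (.l 2 [817,2865,3889,4915]) (.n (.n .e (.n (.n (.l 0 [945,2996]) (.l 0 [1969,2996])) (.l 0 [1969]))) .e)) (.n (.n (.n .e (.n (.l 0 [882,1908,2930]) (.l 0 [1905]))) .e) (.n (.n (.l 1 [500,1523,2546]) (.n (.n (.n (.l 0 [1009]) (.l 0 [1011])) (.l 0 [1012])) (.n (.l 0 [1010]) (.l 0 [1011])))) .e)))) .e) (.n (.n (.n (.n (.l 2 [1819,2844,3866,5914]) (.n (.n .e (.n (.n (.l 0 [923,1947,2969]) (.l 0 [2972])) (.l 0 [922,1945]))) .e)) (.n (.n (.n .e (.n (.n (.l 0 [860,1881,2907]) (.l 0 [1883,2908])) (.l 0 [1884]))) .e) (.n (.n (.l 1 [476,1497]) (.n (.n (.l 1 [987]) (.n (.l 0 [986]) (.l 0 [985]))) (.n (.l 1 [988]) (.l 0 [987])))) .e))) (.n (.n (.n (.n .e (.n (.n (.l 0 [827]) (.l 0 [826]))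 (.l 0 [828,1851]))) .e) (.n (.n (.n (.l 1 [2491]) (.l 0 [443,1465,2491])) (.n (.n (.l 0 [954]) (.l 0 [954])) (.n (.l 0 [956]) (.l 0 [953])))) .e)) (.n (.n (.n (.n (.l 1 [380,1402,2425]) (.l 0 [380,1402,2426])) (.n (.n (.n (.l 0 [892]) (.l 0 [889])) (.l 0 [889])) (.n (.n (.l 0 [889]) (.l 0 [890])) (.l 1 [891])))) .e) (.n (.n (.n (.n (.l 1 [505]) (.l 0 [508])) (.n (.l 1 [507]) (.l 0 [506]))) (.l 2 [1020])) .e)))) .e))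
def r35 : Tr (List ℕ) := (.n (.n (.n (.n (.l 5 [1948]) (.n (.l 2 [857,1882]) (.l 6 [985]))) (.n (.n (.l 2 [825,1849]) (.n (.n .e (.n (.l 0 [953]) (.l 0 [954]))) .e)) (.n (.l 6 [889]) (.n (.n (.l 1 [505]) (.n (.n (.n (.l 0 [1017]) (.l 0 [1020])) (.l 0 [1020])) (.n (.l 0 [1018]) (.l 0 [1018])))) .e)))) .e) .e)
def r37 : Tr (List ℕ) := (.n (.n (.n (.n (.n (.l 2 [810,2857,3882]) (.l 2 [939,1963])) (.n (.l 2 [875,1897,2924]) (.l 6 [1004]))) .e) (.n (.n (.n (.l 2 [825,1850]) (.n (.n .e (.n (.l 0 [955]) (.l 0 [954]))) .e)) (.n (.l 6 [891]) (.n (.n .e (.n (.n (.l 0 [1020]) (.l 0 [1018])) .e)) .e))) .e)) .e)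
def r38 : Tr (List ℕ) := (.n (.n (.n (.n (.l 4 [1844,3891,4914]) (.n (.l 2 [883,1907,2930]) (.n (.n .e (.n (.l 0 [1009]) (.l 0 [1011]))) .e))) .e) .e) (.n (.n (.n (.n (.l 2 [825,1850]) (.n (.n .e (.n (.n (.l 0 [956]) (.l 0 [956])) (.l 0 [953]))) .e)) (.n (.n (.n .e (.n (.n (.l 0 [890]) (.l 0 [890])) (.l 0 [890]))) .e) (.n (.n (.l 1 [505]) (.n (.n (.n (.l 0 [1020]) (.l 0 [1017])) (.n (.l 0 [1018]) (.l 0 [1020]))) (.n (.n (.l 0 [1019]) (.l 0 [1017])) (.l 0 [1020])))) .e))) .e) .e))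
def r39 : Tr (List ℕ) := (.n (.n (.n (.n (.l 5 [953]) (.n (.l 2 [891]) (.l 2 [1019]))) .e) .e) .e)
def r41 : Tr (List ℕ) := (.n (.n (.n (.n (.n (.l 2 [2892,3916,4937]) (.l 2 [1994,3019])) .e) (.n (.n (.l 2 [875,1898,2924]) (.n (.n .e (.n (.n (.l 0 [1004]) (.l 0 [1003])) (.l 0 [1003]))) .e)) .e)) (.n (.l 8 [1882,2906]) (.n (.n (.n (.n .e (.n (.l 1 [891]) (.l 0 [889]))) .e) (.n (.n (.l 1 [505]) (.n (.n (.l 0 [1018]) (.n (.l 0 [1018]) (.l 0 [1019]))) (.n (.n (.l 0 [1019]) (.l 0 [1020])) (.l 0 [1020])))) .e)) .e))) .e)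
def r42 : Tr (List ℕ) := (.n (.n (.n (.n (.n (.l 2 [1876,2897]) (.l 2 [978,2002,3026])) .e) (.n (.n (.l 2 [2932]) (.n (.n .e (.n (.l 1 [1011]) (.l 0 [1010]))) .e)) .e)) .e) (.n (.n (.n (.n (.l 2 [859,1881]) (.n (.n .e (.n (.n (.l 0 [987]) (.l 0 [987])) .e)) .e)) .e) (.n (.n (.l 6 [890]) (.n (.n (.l 2 [506]) (.n (.n (.l 0 [1019]) (.l 0 [1017])) (.n (.l 0 [1017]) (.l 0 [1020])))) .e)) .e)) .e))
def r43 : Tr (List ℕ) := (.n (.n (.n (.n (.n (.l 2 [1882,2906]) (.l 2 [986])) .e) (.n (.n (.l 2 [892]) (.n (.n .e (.n (.l 1 [1017]) (.l 0 [1018]))) .e)) .e)) .e) .e)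
def r44 : Tr (List ℕ) := (.n (.n (.n (.n (.n (.l 2 [867,1890]) (.l 2 [996,2017])) .e) .e) (.n (.n (.n (.l 2 [883,1907,2931]) (.n (.n .e (.n (.l 0 [1011]) (.l 0 [1011]))) .e)) .e) .e)) (.n (.n (.n (.n (.l 2 [873,2921]) (.n (.n .e (.n (.n (.l 0 [1002]) (.l 0 [1002])) (.l 0 [1003]))) .e)) .e) .e) (.n (.n (.n (.n (.n .e (.n (.l 0 [891]) (.l 0 [891]))) .e) (.n (.n (.l 1 [505]) (.n (.n (.l 0 [1020]) (.l 0 [1017])) (.n (.l 0 [1020]) (.l 0 [1019])))) .e)) .e) .e)))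
def r45 : Tr (List ℕ) := (.n (.n (.n (.n (.n (.l 2 [876,1898,2923]) (.l 2 [1004])) .e) .e) (.n (.n (.n (.l 2 [892]) (.n (.n .e (.n (.l 0 [1018]) (.l 0 [1019]))) .e)) .e) .e)) .e)
def r46 : Tr (List ℕ) := (.n (.l 32 [883,1906]) (.n (.n (.n (.n (.l 2 [889]) (.n (.n .e (.n (.n (.l 0 [1020]) (.l 0 [1019])) (.l 0 [1018]))) .e)) .e) .e) .e))
def r47 : Tr (List ℕ) := (.n (.n (.n (.n (.n (.l 2 [891]) (.l 2 [1017])) .e) .e) .e) .e)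
def r48 : Tr (List ℕ) := (.n (.n (.n (.n (.l 4 [2945]) (.l 4 [1988,4033])) (.n (.l 4 [930,2977,4003,5027,6051]) (.n (.n (.n .e (.n (.l 0 [993,2017,3043]) (.l 0 [996,2019]))) .e) .e))) (.n (.n (.l 4 [1940,2964,3985,5009,7057,9108]) (.n (.n (.n .e (.n (.l 0 [980,2002]) (.l 0 [2002,3028]))) .e) .e)) (.n (.n (.n (.n .e (.n (.l 1 [947,1970,2995]) (.l 0 [945,1971,2996]))) .e) .e) (.n (.n (.n (.l 1 [500,1523,2546]) (.n (.n (.n (.l 0 [1009]) (.l 0 [1009])) (.l 0 [1009])) (.n (.n (.l 0 [1012]) (.l 0 [1009])) (.l 0 [1012])))) .e) .e)))) (.n (.n (.n (.l 4 [1929,5002,6027,7049]) (.n (.n (.n .e (.n (.n (.l 0 [972,3019]) (.l 0 [971,1996,3020])) (.l 0 [972,1995]))) .e) .e)) (.n (.n (.n (.n .e (.n (.n (.l 0 [1963]) (.l 0 [940,1961])) (.l 0 [940,1964]))) .e) .e) (.n (.n (.n (.n (.l 1 [489,1514,2538]) (.l 0 [1515,2540])) (.n (.n (.n (.n (.l 0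 [1002]) (.l 0 [1004])) (.l 0 [1003])) (.n (.l 0 [1003]) (.l 0 [1001]))) (.n (.l 0 [1002]) (.l 1 [1001])))) .e) .e))) (.n (.n (.n (.n (.n .e (.n (.l 0 [923,1946,2969]) (.l 0 [921,1948,2971]))) .e) .e) (.n (.n (.n (.l 1 [473,1497,2524]) (.n (.n (.n (.l 0 [988]) (.l 0 [988])) (.l 0 [985])) (.l 0 [985]))) .e) .e)) (.n (.n (.n (.n (.n (.l 1 [442,1468,2492]) (.l 0 [442,1465,2490])) (.n (.n (.l 0 [954]) (.l 0 [953])) (.n (.l 0 [956]) (.l 0 [953])))) .e) .e) (.n (.n (.n (.n (.n (.l 1 [507]) (.l 0 [506])) (.n (.l 0 [508]) (.l 0 [505]))) (.n (.n (.l 0 [1018]) (.l 0 [1020])) .e)) .e) .e)))))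
def r49 : Tr (List ℕ) := (.n (.n (.n (.n (.l 4 [1932,3977,5004,6025,7049]) (.l 4 [969,3019])) (.n (.l 4 [940,1961]) (.n (.n (.n .e (.n (.l 0 [1003]) (.l 0 [1003]))) .e) .e))) (.n (.n (.l 4 [1946,2972]) (.l 4 [986])) (.n (.l 4 [956]) (.n (.n (.n (.l 1 [508]) (.n (.n (.l 0 [1020]) (.l 0 [1018])) (.n (.l 0 [1018]) (.l 0 [1020])))) .e) .e)))) .e)
def r50 : Tr (List ℕ) := (.n (.n (.n (.n (.l 4 [1940,6033,7057,9105]) (.l 4 [977,3025])) (.n (.l 4 [945,1971,2995]) (.n (.n (.n .e (.n (.l 0 [1011]) (.l 0 [1012]))) .e) .e))) .e) (.n (.n (.n (.l 4 [921,1948,2969]) (.l 20 [987])) (.n (.l 12 [954]) (.n (.n (.n (.n (.l 1 [506]) (.l 0 [505])) (.n (.n (.l 0 [1019]) (.l 0 [1020])) (.n (.l 0 [1019]) (.l 1 [1019])))) .e) .e))) .e))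
def r51 : Tr (List ℕ) := (.n (.n (.n (.n (.l 4 [922,1946]) (.l 4 [988])) (.n (.l 4 [955]) (.l 12 [1019]))) .e) .e)
def r52 : Tr (List ℕ) := (.n (.n (.n (.n (.l 4 [932,1956,2980,4003,5025,6050]) (.l 4 [993])) .e) (.n (.n (.l 4 [946,1972,2994]) (.n (.n (.n .e (.n (.l 0 [1010]) (.l 0 [1009]))) .e) .e)) .e)) (.n (.n (.n (.l 4 [940,1964]) (.n (.n (.n .e (.n (.n (.l 0 [1001]) (.l 0 [1002])) .e)) .e) .e)) .e) (.n (.n (.n (.n (.n .e (.n (.l 0 [953]) (.l 0 [953]))) .e) .e) (.n (.n (.n (.l 1 [505]) (.n (.n (.l 0 [1020]) (.l 0 [1020])) (.l 1 [1019]))) .e) .e)) .e)))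
def r53 : Tr (List ℕ) := (.n (.n (.n (.n (.l 4 [1962]) (.l 4 [1004])) .e) (.n (.n (.l 4 [956]) (.l 4 [1017])) .e)) .e)
def r54 : Tr (List ℕ) := (.n (.l 32 [947,1970,2994]) (.n (.n (.n (.l 4 [954]) (.l 4 [1020])) .e) .e))
def r55 : Tr (List ℕ) := (.l 72 [1017])
def r56 : Tr (List ℕ) := (.n (.n (.n (.l 8 [1988,3012,4033]) (.l 8 [996,2018,3042])) (.n (.l 8 [978,2002,3025]) (.n (.n (.n (.n .e (.n (.n (.l 0 [1011]) (.l 0 [1012])) (.l 0 [1012]))) .e) .e) .e))) (.n (.n (.l 8 [972,1995,3018]) (.n (.n (.n (.n .e (.n (.l 0 [1002]) (.l 0 [1003]))) .e) .e) .e)) (.n (.l 24 [988]) (.n (.n (.n (.n (.n (.l 1 [506]) (.l 0 [506])) (.n (.l 1 [1019]) (.n (.l 0 [1017]) (.l 0 [1017])))) .e) .e) .e))))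
def r57 : Tr (List ℕ) := (.n (.n (.n (.l 8 [969,1993,3017]) (.l 8 [1001])) (.n (.l 8 [988]) (.n (.n (.n (.n .e (.n (.n (.l 0 [1020]) (.l 0 [1019])) (.l 0 [1020]))) .e) .e) .e))) .e)
def r58 : Tr (List ℕ) := (.n (.n (.n (.l 8 [977,3026]) (.l 8 [1012])) .e) (.n (.n (.l 8 [988]) (.n (.n (.n (.n .e (.n (.n (.l 0 [1020]) (.l 0 [1020])) (.l 0 [1017]))) .e) .e) .e)) .e))
def r59 : Tr (List ℕ) := (.l 64 [987])
def r60 : Tr (List ℕ) := (.n (.l 32 [994,2017,3044]) (.n (.l 16 [1002]) (.l 16 [1020])))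
def r61 : Tr (List ℕ) := (.n (.n (.l 16 [1001]) (.l 16 [1019])) .e)
def r62 : Tr (List ℕ) := (.l 64 [1012])
def r63 : Tr (List ℕ) := (.l 64 [1020])
def r64 : Tr (List ℕ) := (.n (.n (.n .e (.n (.l 11 [929,4003,5028,6052]) (.n .e (.n (.l 2 [737]) (.l 2 [993,2017,3043]))))) (.n (.n (.n .e (.n .e (.n (.n (.l 1 [916,1940,2964,3985,5009,6033,7057,8081,9108]) (.l 0 [2964,5009,7057,8084])) .e))) .e) (.n (.n (.l 5 [820,1844,3892,4915,5937]) (.n (.n (.n (.l 1 [1715,2739,3761,5811,6834]) (.l 0 [2740,4785,5809,6836])) .e) (.n (.n (.n (.l 1 [945]) (.n (.l 0 [946,1971,2993]) (.l 0 [2994]))) (.n (.n (.l 0 [1972,2996]) (.l 0 [1969,2996])) (.l 0 [945,1972,2994]))) .e))) (.n (.n (.l 2 [628,1649,2673,5748]) (.l 2 [882,1905,2932])) (.n (.n (.n (.l 1 [1778,2804]) (.l 0 [754,1779,2804])) .e) (.l 4 [1009])))))) (.n (.n (.n (.l 19 [908,1929,2956,3977,5002,6028,7049])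 (.n (.l 5 [844,2892,4937]) (.n (.l 2 [716,4809,6857]) (.n (.n (.l 1 [971,1994,3020]) (.n (.l 0 [972,1995]) (.l 0 [1996,3019]))) .e)))) (.n (.n (.l 5 [809,2858,3883]) (.n (.n (.n (.l 1 [681,1707,2732,3755]) (.l 0 [684])) .e) (.n (.n (.l 2 [940,1964]) (.n (.n (.l 0 [1961]) (.l 0 [940,1964])) (.l 0 [1961]))) .e))) (.n (.n (.n (.n (.l 1 [619,2665,3689,4713,5737,8809]) (.l 0 [620,1641,3689,5737,6764])) .e) (.n (.n (.l 1 [876,1900,2921]) (.n (.l 0 [874,1898,2924]) (.l 0 [875,2922]))) .e)) (.n (.n (.n (.n (.l 1 [746,1771]) (.l 0 [745,1772,2794])) (.n (.n (.l 0 [746,1770,2793]) (.l 0 [745,2795])) (.l 0 [1770]))) .e) (.l 4 [1001]))))) (.n (.n (.n (.n .e (.n (.n (.l 1 [1817,2841,3867,4890]) (.l 0 [796,1818,2842,4891,5915])) .e)) (.n (.l 2 [666,1690,2716,3738]) (.n (.n (.n (.n (.l 1 [1946,2969]) (.l 0 [921,1947,2970])) (.n (.l 0 [923,1947,2970])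 (.l 0 [921,1947,2969]))) (.n (.n (.l 0 [921,2971]) (.l 0 [921,2969])) (.n (.l 0 [921,1946,2972]) (.l 0 [923,1947,2971])))) .e))) (.n (.n (.l 2 [602,1625,2650,3676]) (.n (.n (.l 1 [860,1882,2907]) (.n (.l 0 [857,1884,2906]) (.l 0 [857]))) .e)) (.n (.n (.n (.l 1 [732,1755]) (.l 0 [731,1755])) .e) (.n (.n (.l 1 [985]) (.l 0 [988])) .e)))) (.n (.n (.n (.n (.n (.l 1 [572,1596,2617]) (.l 0 [570,1595,2618,3643])) .e) (.n (.n (.n (.l 1 [1852]) (.l 0 [828,1850])) (.n (.n (.l 0 [827,1849]) (.l 0 [1850])) (.l 0 [1851]))) .e)) (.n (.n (.n (.n (.l 1 [1722]) (.n (.l 0 [697,1722]) (.l 0 [700,1723]))) (.n (.n (.l 0 [698,1723]) (.l 0 [699,1721])) (.l 0 [700]))) .e) (.n (.n (.l 1 [955]) (.l 0 [955])) .e))) (.n (.n (.n (.n (.n (.l 1 [1660,2681]) (.n (.l 0 [635,1657,2684]) (.l 0 [1658,2682]))) (.n (.n (.l 0 [1660,2682]) (.l 0 [636,1660,2683])) (.l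 0 [636,1660,2682]))) .e) (.n (.n (.l 1 [890]) (.l 0 [891])) .e)) (.n (.n (.n (.l 1 [764]) (.l 0 [764])) .e) .e))))))
def r65 : Tr (List ℕ) := (.n (.n (.n .e (.n (.l 11 [940,1962]) (.l 9 [746,1770,2795]))) (.n (.n (.n .e (.n .e (.n (.n (.l 1 [924,1945,2969]) (.l 0 [1946,2972])) .e))) .e) (.n (.n (.l 5 [826,1851]) (.n (.n (.n (.l 1 [699,1723]) (.l 0 [698,1724])) .e) (.l 4 [956]))) (.n (.n (.l 2 [636,2684]) (.l 2 [891])) (.n (.l 4 [761]) (.n (.n (.l 1 [1020]) (.l 0 [1018])) .e)))))) .e)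
def r66 : Tr (List ℕ) := (.n (.n (.n .e (.n (.l 11 [946]) (.l 9 [755,1777,2803]))) .e) (.n (.n (.n (.n .e (.n .e (.n (.n (.l 1 [924,1945,2972]) (.l 0 [924,1945,2970])) .e))) (.n (.l 5 [857,1881,2906]) (.n (.l 2 [729,1753]) (.n (.n .e (.n (.l 0 [985]) (.l 0 [985]))) .e)))) (.n (.n (.l 5 [827]) (.n (.n (.n (.l 1 [1723]) (.l 0 [697,1722])) .e) (.n (.n (.n (.l 1 [954]) (.l 0 [953])) (.n (.n (.l 0 [956]) (.l 0 [956])) .e)) .e))) (.n (.n (.n (.n (.l 1 [635,2681]) (.l 0 [636,1657,2681])) .e) (.n (.n (.l 1 [889]) (.l 1 [889])) .e)) (.n (.n (.n (.n (.l 1 [761]) (.l 0 [764])) (.n (.n (.l 0 [762]) (.l 0 [761])) (.l 0 [763]))) .e) (.n (.n (.l 1 [1017]) (.l 0 [1017])) .e))))) .e))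
def r67 : Tr (List ℕ) := (.n (.n (.n .e (.n (.l 11 [956]) (.n .e (.n (.l 2 [762]) (.l 2 [1018]))))) .e) .e)
def r68 : Tr (List ℕ) := (.n (.n .e (.n (.n (.n .e (.n .e (.n (.n (.l 1 [948,1970]) (.l 0 [946,1970])) .e))) .e) .e)) (.n (.n (.n (.n .e (.n .e (.n (.n (.l 1 [937]) (.l 0 [937,1961])) .e))) (.n (.l 5 [874,1897]) (.n (.l 2 [1771,2795]) (.n (.n (.l 1 [1001]) (.n (.l 0 [1002]) (.l 0 [1004]))) .e)))) .e) (.n (.n (.n (.l 9 [827,1852]) (.n (.l 2 [697,1722]) (.n (.n (.n (.n (.l 1 [953]) (.l 0 [955])) (.n (.l 0 [954]) (.l 0 [954]))) (.n (.n (.l 0 [954]) (.l 0 [953])) (.n (.l 0 [956]) (.l 0 [953])))) .e))) (.n (.n (.l 2 [634,1659,2682]) (.n (.n (.l 1 [889]) (.l 0 [889])) .e)) (.n (.n (.n (.l 1 [762]) (.l 0 [762])) .e) (.n (.n (.l 1 [1019]) (.l 0 [1018])) .e)))) .e)))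
def r69 : Tr (List ℕ) := (.n (.n .e (.n (.n (.n .e (.n .e (.n (.n (.l 1 [954]) (.l 0 [955])) .e))) .e) .e)) .e)
def r70 : Tr (List ℕ) := (.n .e (.n (.n (.n (.l 19 [953]) (.n (.l 5 [891]) (.n (.l 2 [762]) (.n (.n (.l 1 [1018]) (.n (.l 0 [1019]) (.l 0 [1019]))) .e)))) .e) .e))
def r72 : Tr (List ℕ) := (.n (.n (.l 45 [993,2018,3043]) (.n (.n (.n .e (.n .e (.n (.n (.l 1 [980,2002,3026]) (.l 0 [980,3026])) .e))) .e) (.n (.n (.l 5 [881,1908]) (.n (.n (.n (.l 1 [755,1778,2801]) (.l 0 [753,1777,2802])) .e) (.n (.n .e (.n (.l 0 [1012]) (.l 0 [1012]))) .e))) .e))) (.n (.n (.n (.n .e (.n .e (.n (.n (.l 1 [969,1995]) (.l 0 [1995,3017])) .e))) .e) (.n (.n (.l 5 [875,1900,2922]) (.n (.n (.n (.l 1 [746,1770,2793]) (.l 0 [746,2796])) .e) (.n (.n (.n (.l 1 [1002]) (.l 0 [1002])) (.n (.n (.l 0 [1003]) (.l 0 [1003])) (.l 0 [1002]))) .e))) .e))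 (.n (.n (.n (.n .e (.n (.n (.l 1 [860,1883,2906]) (.l 0 [857,1881,2906])) .e)) (.n (.l 2 [731,1754]) (.n (.n (.n (.l 2 [987]) (.l 0 [988])) (.l 0 [987])) .e))) .e) (.n (.n (.n (.n (.n (.l 1 [636,1658,2684]) (.l 0 [635,1657])) .e) (.n (.n (.l 2 [889]) (.n (.l 0 [891]) (.l 0 [889]))) .e)) (.n (.n (.n (.n (.l 1 [764]) (.n (.l 0 [763]) (.l 0 [764]))) (.n (.n (.l 0 [762]) (.l 0 [761])) (.l 0 [762]))) .e) (.l 2 [1018]))) .e))))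
def r73 : Tr (List ℕ) := (.n (.n (.l 45 [1001]) (.n (.n (.n .e (.n .e (.n (.n (.l 1 [987]) (.l 0 [985])) .e))) .e) (.n (.n (.l 5 [891]) (.n (.n (.n (.l 1 [763]) (.l 0 [764])) .e) (.n (.n (.l 1 [1018]) (.n (.n (.l 0 [1019]) (.l 0 [1018])) (.l 0 [1019]))) .e))) .e))) .e)
def r74 : Tr (List ℕ) := (.n (.l 90 [1010]) (.n (.n (.l 22 [985]) (.n (.n (.l 5 [891]) (.n (.n (.n (.l 1 [762]) (.l 0 [762])) .e) (.n (.n (.n (.l 1 [1018]) (.l 0 [1018])) (.n (.l 1 [1018]) (.l 0 [1020]))) .e))) .e)) .e))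
def r75 : Tr (List ℕ) := (.l 180 [1020])
def r76 : Tr (List ℕ) := (.n (.n .e (.n (.n (.n .e (.n .e (.n (.n (.l 1 [1009]) (.l 0 [1009])) .e))) .e) .e)) (.n (.l 44 [1004]) (.n (.n (.n (.n .e (.n (.n (.l 1 [890]) (.l 0 [892])) .e)) (.n (.l 2 [762]) (.n (.n (.n (.n (.l 1 [1019]) (.l 0 [1020])) (.l 1 [1020])) (.n (.n (.l 0 [1018]) (.l 0 [1019])) (.n (.l 0 [1019]) (.l 0 [1018])))) .e))) .e) .e)))
def r77 : Tr (List ℕ) := (.n (.n .e (.n (.n (.n .e (.n .e (.n (.n (.l 1 [1018]) (.l 0 [1017])) .e))) .e) .e)) .e)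
def r80 : Tr (List ℕ) := (.n (.n .e (.n .e (.n (.l 10 [947,1971,2994]) (.n (.n (.l 2 [755,1779]) (.l 2 [1009])) .e)))) (.n (.n (.l 21 [971,1994,3018]) (.n (.l 10 [938,1964]) (.n (.n (.n (.n (.l 1 [747,1769,2793]) (.l 0 [748,1772,2794])) .e) (.n (.n (.l 1 [1002]) (.n (.l 0 [1001]) (.l 0 [1004]))) .e)) .e))) (.n (.n (.n (.n .e (.n (.n (.l 1 [922,1948,2969]) (.l 0 [923,1945,2972])) .e)) .e) (.n (.n (.l 2 [730,1754]) (.n (.n (.l 1 [988]) (.n (.l 0 [985]) (.l 0 [986]))) .e)) .e)) (.n (.n (.n (.n (.n (.l 1 [699,1721]) (.l 0 [699,1721])) .e) (.n (.n .e (.n (.n (.l 0 [953]) (.l 0 [956])) (.l 0 [953]))) .e)) .e) (.n (.n (.n (.n (.n (.l 1 [762]) (.l 1 [762])) (.n (.l 0 [763]) (.l 0 [763]))) .e) (.n (.n (.l 1 [1018]) (.l 0 [1018])) .e)) .e)))))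
def r81 : Tr (List ℕ) := (.n (.n .e (.n .e (.n (.l 10 [955]) (.l 8 [762])))) .e)
def r82 : Tr (List ℕ) := (.n .e (.n (.n .e (.n .e (.n (.n (.n (.n (.l 1 [762]) (.l 0 [762])) .e) (.n (.n (.l 1 [1017]) (.l 0 [1018])) .e)) .e))) .e))
def r84 : Tr (List ℕ) := (.n .e (.n (.l 42 [1001]) (.n (.n (.n (.n .e (.n (.n (.l 1 [954]) (.l 0 [953])) .e)) .e) (.n (.n (.l 2 [762]) (.n (.n .e (.n (.l 0 [1020]) (.l 0 [1020]))) .e)) .e)) .e)))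
def r86 : Tr (List ℕ) := (.l 169 [1018])
def r88 : Tr (List ℕ) := (.n (.l 83 [1010]) (.n (.l 41 [1003]) (.n (.n (.n (.n .e (.n (.n (.l 1 [985]) (.l 0 [988])) .e)) .e) .e) (.n (.n (.n (.n (.n (.l 1 [764]) (.l 0 [762])) .e) (.n (.n (.n (.l 1 [1019]) (.l 0 [1020])) (.l 0 [1019])) .e)) .e) .e))))
def r89 : Tr (List ℕ) := (.l 166 [1017])
def r90 : Tr (List ℕ) := (.l 165 [1017])
def r92 : Tr (List ℕ) := (.l 291 [1018])
def r96 : Tr (List ℕ) := (.n (.n (.l 39 [2020,3042]) (.n .e (.n (.n .e (.n (.n (.n (.l 1 [947,1970,2993]) (.l 0 [1972,2993])) .e) .e)) (.n (.l 4 [884,1905,2932]) (.l 8 [1010]))))) (.n (.n (.l 19 [970,1995,3019]) (.n (.n .e (.n (.n (.n (.l 1 [1963]) (.l 0 [937])) .e) .e)) (.n (.n (.n (.n (.l 1 [875,1898,2921]) (.l 0 [876,1898])) .e) .e) (.n (.n (.n (.n (.l 1 [1004]) (.l 0 [1002])) (.n (.n (.l 0 [1004]) (.l 0 [1001]))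 (.l 0 [1001]))) .e) .e)))) (.n (.n (.l 9 [923,1945,2971]) (.n (.l 4 [858,1881,2906]) (.n (.n (.n (.l 1 [988]) (.l 0 [986])) .e) .e))) (.n (.n (.n (.n (.n (.l 1 [1852]) (.l 0 [828,1850])) .e) .e) (.n (.n (.n (.n (.l 1 [954]) (.n (.l 0 [956]) (.l 0 [955]))) (.n (.n (.l 0 [956]) (.l 0 [953])) (.l 0 [956]))) .e) .e)) (.n (.n (.n (.n (.l 1 [891]) (.n (.l 0 [890]) (.l 0 [892]))) .e) .e) (.n (.n (.n (.l 1 [1020]) (.l 0 [1017])) .e) .e))))))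
def r97 : Tr (List ℕ) := (.n (.n (.l 39 [1001]) (.n .e (.n (.n .e (.n (.n (.n (.l 1 [953]) (.l 0 [955])) .e) .e)) (.n (.l 4 [889]) (.n (.n (.n (.l 1 [1020]) (.l 0 [1018])) .e) .e))))) .e)
def r98 : Tr (List ℕ) := (.n .e (.n (.n .e (.n (.n .e (.n (.n (.n (.l 1 [955]) (.l 0 [954])) .e) .e)) (.n (.n (.n (.n (.l 1 [891]) (.l 0 [891])) .e) .e) (.n (.n (.n (.n (.l 1 [1017]) (.l 0 [1020])) (.n (.l 1 [1020]) (.l 0 [1018]))) .e) .e)))) .e))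
def r99 : Tr (List ℕ) := (.l 156 [1017])
def r100 : Tr (List ℕ) := (.n .e (.n (.l 38 [1001]) (.l 70 [1018])))
def r104 : Tr (List ℕ) := (.n (.l 139 [1010]) (.n (.n .e (.n (.n .e (.n (.n (.n (.l 1 [1004]) (.l 0 [1002])) .e) .e)) .e)) (.n (.l 18 [988]) (.n (.n (.l 4 [889]) (.n (.n (.n (.n (.l 1 [1019]) (.l 0 [1018])) (.n (.n (.l 0 [1020]) (.l 0 [1019])) (.l 0 [1020]))) .e) .e)) .e))))
def r105 : Tr (List ℕ) := (.n (.n .e (.n .e (.n (.n .e (.n (.n (.n (.l 1 [1019]) (.l 0 [1019])) .e) .e)) .e))) .e)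
def r106 : Tr (List ℕ) := (.n .e (.n (.n .e (.n (.n .e (.n (.n (.n (.l 1 [1019]) (.l 0 [1018])) .e) .e)) .e)) .e))
def r108 : Tr (List ℕ) := (.l 147 [1017])
def r112 : Tr (List ℕ) := (.n (.l 71 [1012]) (.n (.n .e (.n .e (.n (.n (.n (.n (.l 1 [1001]) (.l 0 [1001])) .e) .e) .e))) (.n (.l 17 [986]) (.n (.l 16 [955]) (.n (.n (.n (.n (.n (.l 1 [1018]) (.n (.l 0 [1019]) (.l 0 [1019]))) (.n (.n (.l 0 [1017]) (.l 0 [1019])) (.l 0 [1017]))) .e) .e) .e)))))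
def r113 : Tr (List ℕ) := (.l 142 [1017])
def r114 : Tr (List ℕ) := (.n .e (.n (.n .e (.n .e (.n (.n (.n (.n (.l 1 [1017]) (.l 0 [1017])) .e) .e) .e))) .e))
def r116 : Tr (List ℕ) := (.l 139 [1019])
def r120 : Tr (List ℕ) := (.n .e (.n .e (.n .e (.n (.n (.n (.n (.n (.l 1 [1018]) (.l 0 [1019])) .e) .e) .e) .e))))
def r135 : Tr (List ℕ) := (.n (.n (.n (.n (.l 23 [954]) (.n (.l 7 [889]) (.n (.l 3 [763]) (.n .e (.n (.l 1 [1019]) (.l 1 [1020])))))) .e) .e) .e)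
def r139 : Tr (List ℕ) := (.n (.n (.n (.n (.n .e (.n .e (.n .e (.n (.l 1 [988]) (.l 0 [987]))))) .e) (.n (.n .e (.n (.n .e (.n (.l 1 [761]) (.l 0 [764]))) (.n .e (.n (.n (.l 1 [1019]) (.l 0 [1020])) (.n (.n (.l 0 [1020]) (.l 0 [1018])) .e))))) .e)) .e) .e)
def r141 : Tr (List ℕ) := (.n (.n (.l 92 [1004]) (.n (.n (.n (.n .e (.n .e (.n (.l 1 [889]) (.l 0 [889])))) (.n (.l 3 [763]) (.n (.l 1 [507]) (.n (.n (.n (.l 1 [1019]) (.l 0 [1020])) (.n (.l 0 [1019]) (.l 0 [1018]))) (.n (.n (.l 0 [1017]) (.l 0 [1019])) (.l 0 [1018])))))) .e) .e)) .e)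
def r142 : Tr (List ℕ) := (.n (.l 184 [1012]) (.n (.n (.n (.n .e (.n (.n .e (.n (.l 1 [763]) (.l 0 [763]))) (.n (.n (.l 1 [507]) (.l 0 [507])) (.n (.n (.l 1 [1017]) (.n (.l 0 [1019]) (.l 0 [1017]))) (.n (.l 1 [1017]) (.l 0 [1017])))))) .e) .e) .e))
def r143 : Tr (List ℕ) := (.l 240 [1020])
def r147 : Tr (List ℕ) := (.n (.n (.n (.l 29 [987]) (.n .e (.n (.n (.l 3 [764]) (.l 3 [1020])) .e))) .e) .e)
def r149 : Tr (List ℕ) := (.n (.n (.l 58 [1003]) (.n (.n (.n (.n .e (.n .e (.n (.l 1 [956]) (.l 0 [956])))) .e) (.n (.n (.l 3 [761]) (.n .e (.n (.l 1 [1019]) (.n (.l 0 [1020]) (.l 0 [1017]))))) .e)) .e)) .e)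
def r150 : Tr (List ℕ) := (.n (.l 116 [1009]) (.n (.n (.n (.l 14 [954]) (.n (.n .e (.n (.l 1 [505]) (.n (.l 1 [1019]) (.n (.l 0 [1017]) (.l 0 [1020]))))) .e)) .e) .e))
def r151 : Tr (List ℕ) := (.l 232 [1017])
def r153 : Tr (List ℕ) := (.n (.n (.l 57 [1001]) (.n (.l 44 [986]) (.n (.n (.n (.n .e (.n (.l 1 [761]) (.l 0 [761]))) (.n .e (.n (.n (.l 1 [1017]) (.l 0 [1018])) (.n (.n (.l 0 [1018]) (.l 0 [1018])) (.l 0 [1019]))))) .e) .e))) .e)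
def r155 : Tr (List ℕ) := (.l 228 [1019])
def r156 : Tr (List ℕ) := (.n (.n .e (.n (.n (.n (.n .e (.n .e (.n (.l 1 [1012]) (.l 0 [1011])))) .e) .e) .e)) (.n .e (.n (.n (.n (.n .e (.n (.n (.l 1 [507]) (.l 0 [505])) (.n (.l 1 [1019]) (.n (.n (.l 0 [1019]) (.l 0 [1019])) (.l 0 [1019]))))) .e) .e) .e)))
def r157 : Tr (List ℕ) := (.n (.n .e (.n (.n (.n (.n .e (.n .e (.n (.l 1 [1018]) (.l 0 [1019])))) .e) .e) .e)) .e)
def r158 : Tr (List ℕ) := (.l 225 [1019])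
def r163 : Tr (List ℕ) := (.n (.n (.n (.l 27 [985]) (.n (.n .e (.n (.n .e (.n (.l 1 [953]) (.l 0 [956]))) .e)) (.n (.l 6 [890]) (.n (.n .e (.n (.l 1 [1019]) (.n (.l 0 [1018]) (.l 0 [1018])))) .e)))) .e) .e)
def r165 : Tr (List ℕ) := (.n (.n .e (.n (.n (.l 13 [955]) (.n (.l 6 [891]) (.n (.n .e (.n (.l 1 [1017]) (.l 0 [1017]))) .e))) .e)) .e)
def r166 : Tr (List ℕ) := (.n (.l 108 [1009]) (.n (.n (.n (.n .e (.n (.n .e (.n (.l 1 [955]) (.l 0 [955]))) .e)) (.n (.n (.n .e (.n (.l 1 [891]) (.l 0 [889]))) .e) (.n (.n .e (.n (.n .e (.n (.l 0 [1018]) (.l 0 [1018]))) (.n (.n (.l 0 [1020]) (.l 0 [1019])) (.l 0 [1017])))) .e))) .e) .e))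
def r167 : Tr (List ℕ) := (.l 216 [1019])
def r169 : Tr (List ℕ) := (.n (.n (.l 53 [1004]) (.n (.l 26 [985]) (.n (.n (.l 10 [892]) (.n (.n .e (.n (.l 3 [1019]) (.n (.n (.l 0 [1019]) (.l 0 [1019])) (.l 0 [1017])))) .e)) .e))) .e)
def r171 : Tr (List ℕ) := (.n (.n (.n .e (.n (.n .e (.n (.n .e (.n (.l 1 [1018]) (.l 0 [1020]))) .e)) .e)) .e) .e)
def r173 : Tr (List ℕ) := (.l 210 [1020])
def r174 : Tr (List ℕ) := (.n .e (.n (.n (.n (.n .e (.n (.n .e (.n (.l 1 [1018]) (.l 0 [1017]))) .e)) .e) .e) .e))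
def r177 : Tr (List ℕ) := (.n (.n (.l 51 [1003]) (.n (.l 25 [986]) (.n (.n (.n (.n .e (.n (.l 1 [953]) (.l 0 [954]))) .e) .e) (.n (.n (.n .e (.n (.l 2 [1019]) (.n (.l 1 [1019]) (.l 0 [1020])))) .e) .e)))) .e)
def r178 : Tr (List ℕ) := (.n .e (.n (.n (.n .e (.n (.n (.n .e (.n (.l 1 [985]) (.l 0 [987]))) .e) .e)) (.n (.n (.n (.n .e (.n (.l 1 [955]) (.l 0 [953]))) .e) .e) (.n (.n (.n (.l 2 [505]) (.n (.n (.n (.l 1 [1020]) (.l 0 [1019])) (.n (.l 0 [1017]) (.l 0 [1020]))) (.n (.n (.l 0 [1020]) (.l 0 [1019])) (.n (.l 0 [1017]) (.l 0 [1017]))))) .e) .e))) .e))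
def r179 : Tr (List ℕ) := (.l 204 [1019])
def r180 : Tr (List ℕ) := (.n (.l 101 [1012]) (.n (.l 50 [1003]) (.n (.n (.l 12 [954]) (.n (.n (.n .e (.n (.l 2 [1019]) (.n (.l 0 [1018]) (.l 0 [1018])))) .e) .e)) .e)))
def r182 : Tr (List ℕ) := (.n .e (.n (.n (.n .e (.n (.n (.n .e (.n (.l 1 [1017]) (.l 0 [1019]))) .e) .e)) .e) .e))
def r185 : Tr (List ℕ) := (.n (.n .e (.n .e (.n (.n (.n (.n .e (.n (.l 1 [1017]) (.l 0 [1017]))) .e) .e) .e))) .e)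
def r198 : Tr (List ℕ) := (.n .e (.n (.n (.n .e (.n .e (.n .e (.n (.n (.l 1 [1018]) (.l 1 [1018])) .e)))) .e) .e))
def r201 : Tr (List ℕ) := (.n (.n .e (.n (.l 38 [986]) (.n (.n .e (.n (.l 4 [764]) (.n (.n (.n (.l 1 [1020]) (.n (.l 0 [1017]) (.l 0 [1019]))) (.n (.l 1 [1019]) (.l 0 [1020]))) .e))) .e))) .e)
def r202 : Tr (List ℕ) := (.n .e (.n (.n .e (.n (.n .e (.n (.l 4 [764]) (.n (.n (.l 1 [1017]) (.l 2 [1018])) .e))) .e)) .e))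
def r204 : Tr (List ℕ) := (.n (.l 153 [1012]) (.n (.l 76 [1001]) (.n (.n (.n (.l 9 [892]) (.n .e (.n (.n (.n (.n (.l 1 [1018]) (.l 0 [1018])) .e) (.n (.l 1 [1017]) (.l 0 [1020]))) .e))) .e) .e)))
def r205 : Tr (List ℕ) := (.l 306 [1020])
def r206 : Tr (List ℕ) := (.l 305 [1017])
def r210 : Tr (List ℕ) := (.n .e (.n (.n .e (.n .e (.n (.n (.l 4 [761]) (.l 4 [1018])) .e))) .e))
def r212 : Tr (List ℕ) := (.n .e (.n .e (.n (.n (.l 18 [956]) (.l 26 [1019])) .e)))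
def r216 : Tr (List ℕ) := (.n .e (.n .e (.n (.l 36 [986]) (.n (.n (.n .e (.n (.n (.n (.l 1 [1018]) (.l 0 [1020])) (.n (.l 1 [1020]) (.l 0 [1019]))) .e)) .e) .e))))
def r220 : Tr (List ℕ) := (.l 291 [1020])
def r226 : Tr (List ℕ) := (.n .e (.n (.n .e (.n .e (.n (.l 8 [892]) (.n (.n (.n (.n (.l 1 [1020]) (.l 0 [1019])) (.l 1 [1020])) .e) .e)))) .e))
def r228 : Tr (List ℕ) := (.l 283 [1020])
def r232 : Tr (List ℕ) := (.n (.l 139 [1010]) (.n (.l 69 [1002]) (.n .e (.n (.n .e (.n (.n (.n (.l 1 [1019]) (.n (.l 1 [1018]) (.l 0 [1020]))) .e) .e)) .e))))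
def r233 : Tr (List ℕ) := (.l 278 [1020])
def r234 : Tr (List ℕ) := (.l 277 [1017])
def r240 : Tr (List ℕ) := (.n .e (.n (.l 67 [1003]) (.n .e (.n (.l 16 [953]) (.n (.n (.n (.n (.l 3 [1019]) (.n (.l 1 [1018]) (.l 0 [1017]))) .e) .e) .e)))))
def r242 : Tr (List ℕ) := (.l 269 [1020])
def r248 : Tr (List ℕ) := (.l 263 [1019])
def r263 : Tr (List ℕ) := (.n (.n (.n (.n (.l 23 [953]) (.n .e (.n .e (.n .e (.n (.l 1 [1020]) (.l 1 [1017])))))) .e) .e) .e)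
def r269 : Tr (List ℕ) := (.n (.n .e (.n (.n (.n (.l 11 [890]) (.n .e (.n (.l 2 [506]) (.n (.n (.n (.l 1 [1018]) (.l 0 [1018])) (.n (.l 0 [1019]) (.l 0 [1020]))) (.n (.l 1 [1017]) (.n (.l 0 [1019]) (.l 0 [1017]))))))) .e) .e)) .e)
def r271 : Tr (List ℕ) := (.l 368 [1020])
def r277 : Tr (List ℕ) := (.n (.n .e (.n (.n (.l 22 [956]) (.n (.n .e (.n .e (.n (.l 1 [1017]) (.l 1 [1017])))) .e)) .e)) .e)
def r278 : Tr (List ℕ) := (.n .e (.n (.n (.n .e (.n (.n (.l 5 [764]) (.n .e (.n (.l 2 [1018]) (.l 1 [1019])))) .e)) .e) .e))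
def r291 : Tr (List ℕ) := (.n (.n (.n .e (.n (.l 21 [953]) (.l 29 [1017]))) .e) .e)
def r299 : Tr (List ℕ) := (.l 340 [1017])
def r305 : Tr (List ℕ) := (.l 462 [1017])
def r306 : Tr (List ℕ) := (.n .e (.n (.n (.l 41 [986]) (.n (.l 20 [953]) (.n (.n (.n .e (.n (.n (.l 1 [1020]) (.n (.l 0 [1017]) (.l 0 [1017]))) (.l 3 [1019]))) .e) .e))) .e))
def r310 : Tr (List ℕ) := (.l 329 [1019])
def r313 : Tr (List ℕ) := (.l 326 [1018])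
def r326 : Tr (List ℕ) := (.l 441 [1019])
def r329 : Tr (List ℕ) := (.n (.n .e (.n .e (.n (.n .e (.n .e (.n (.n (.n (.l 1 [1018]) (.l 1 [1020])) (.n (.l 1 [1020]) (.l 0 [1017]))) .e))) .e))) .e)
def r340 : Tr (List ℕ) := (.l 427 [1017])
def r354 : Tr (List ℕ) := (.n .e (.n (.n .e (.n .e (.n .e (.n (.n (.n (.l 2 [1018]) (.l 2 [1018])) .e) .e)))) .e))
def r368 : Tr (List ℕ) := (.n .e (.n .e (.n .e (.n .e (.n (.n (.n (.n (.n (.l 1 [1017]) (.l 1 [1017])) (.l 2 [1018])) .e) .e) .e)))))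

/-- The table: row `i`, column `j`, for `i < j`. -/
def tab : Tr (Tr (List ℕ)) := (.n (.n (.n (.n (.n (.n (.l 1 r64) (.n (.l 0 r32) (.l 0 r96))) (.n (.n (.l 0 r16) (.l 0 r80)) (.n (.l 0 r48) (.n (.n (.l 0 r112) (.l 0 r368)) (.l 0 r240))))) (.n (.n (.n (.l 0 r8) (.l 0 r72)) (.n .e (.n (.l 0 r104) (.l 0 r232)))) (.n (.n .e (.n (.l 0 r88) (.l 0 r216))) (.n (.l 0 r56) (.n (.l 0 r120) (.l 0 r248)))))) (.n (.n (.n (.n (.l 0 r4) (.l 0 r68)) (.n .e (.n (.l 0 r100) (.l 0 r228)))) (.n (.n (.l 0 r20) (.n (.n (.l 0 r84) (.l 0 r340)) (.l 0 r212))) (.n (.n (.l 0 r52) (.l 0 r180)) (.l 0 r116)))) (.n (.n (.n (.l 0 r12) (.n (.l 0 r76) (.l 0 r204))) (.n (.l 0 r44) (.l 0 r108))) (.n (.n (.n (.l 0 r28) (.l 0 r156)) (.n (.l 0 r92) (.l 0 r220))) (.l 0 r60))))) (.n (.n (.n (.n (.n (.l 0 r2) (.l 0 r66)) (.n (.l 0 r34) (.n (.n (.l 0 r98) (.l 0 r354))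 (.l 0 r226)))) (.n (.n (.l 0 r18) (.n (.l 0 r82) (.l 0 r210))) (.n (.n (.n (.l 0 r50) (.l 0 r306)) (.l 0 r178)) (.n (.l 0 r114) (.l 0 r242))))) (.n (.n (.n .e (.n (.l 0 r74) (.l 0 r202))) (.n (.l 0 r42) (.n (.l 0 r106) (.l 0 r234)))) (.n (.n (.l 0 r26) (.l 0 r90)) (.l 0 r58)))) (.n (.n (.n (.n (.l 0 r6) (.n (.n (.l 0 r70) (.l 0 r326)) (.l 0 r198))) (.n (.n (.l 0 r38) (.l 0 r166)) .e)) (.n (.n (.n (.n (.l 0 r22) (.l 0 r278)) (.l 0 r150)) (.l 0 r86)) (.n (.n (.n (.l 0 r54) (.l 0 r310)) (.l 0 r182)) .e))) (.n (.n (.n (.n (.l 0 r14) (.l 0 r142)) (.l 1 r206)) (.n (.n (.l 0 r46) (.l 0 r174)) .e)) (.n (.n (.n (.l 0 r30) (.l 0 r158)) .e) (.l 0 r62)))))) (.n (.n (.n (.n (.n (.n (.l 0 r1) (.l 0 r65)) (.n (.l 0 r33) (.l 0 r97))) (.n (.n (.l 0 r17) (.l 0 r81)) (.n (.n (.n (.l 0 r49) (.l 0 r305)) (.l 0 r177)) (.l 0 r113)))) (.n (.n (.n (.l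 0 r9) (.n (.n (.l 0 r73) (.l 0 r329)) (.l 0 r201))) (.n (.n (.l 0 r41) (.l 0 r169)) (.n (.l 0 r105) (.l 0 r233)))) (.n (.n (.n (.l 0 r25) (.l 0 r153)) (.l 0 r89)) (.n (.n (.n (.l 0 r57) (.l 0 r313)) (.l 0 r185)) .e)))) (.n (.n (.n (.n (.l 0 r5) (.l 0 r69)) (.n (.n (.l 0 r37) (.l 0 r165)) .e)) (.n (.n (.n (.n (.l 0 r21) (.l 0 r277)) (.l 0 r149)) .e) (.l 0 r53))) (.n (.n (.n (.n (.n (.l 0 r13) (.l 0 r269)) (.l 0 r141)) (.n (.l 0 r77) (.l 0 r205))) (.n (.n (.l 0 r45) (.l 0 r173)) .e)) (.n (.n (.n (.l 0 r29) (.l 0 r157)) .e) (.l 0 r61))))) (.n (.n (.n (.n (.n (.l 0 r3) (.l 0 r67)) (.n (.n (.n (.l 0 r35) (.l 0 r291)) (.l 0 r163)) (.l 0 r99))) (.n (.n (.n (.l 0 r19) (.l 0 r147)) .e) (.n (.n (.l 0 r51) (.l 0 r179)) .e))) (.n (.n (.n (.n (.l 0 r11) (.l 0 r139)) (.l 0 r75)) (.n (.n (.n (.l 0 r43) (.l 0 r299)) (.l 0 r171)) .e)) (.n (.n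 (.n (.l 0 r27) (.l 0 r155)) .e) (.l 0 r59)))) (.n (.n (.n (.n (.n (.n (.l 0 r7) (.l 0 r263)) (.l 0 r135)) .e) (.n (.n (.l 0 r39) (.l 0 r167)) .e)) (.n (.n (.n (.l 0 r23) (.l 0 r151)) .e) (.l 0 r55))) (.n (.n (.n (.n (.n (.l 0 r15) (.l 0 r271)) (.l 0 r143)) .e) (.l 0 r47)) (.n (.l 0 r31) (.l 0 r63)))))))

/-- The list of valid indices. -/
def idxL : List ℕ := [1,2,3,4,5,6,7,8,9,11,12,13,14,15,16,17,18,19,20,21,22,23,25,26,27,28,29,30,31,32,33,34,35,37,38,39,41,42,43,44,45,46,47,48,49,50,51,52,53,54,55,56,57,58,59,60,61,62,63,64,65,66,67,68,69,70,71,72,73,74,75,76,77,78,79,80,81,82,83,84,85,86,87,88,89,90,91,92,93,94,95,96,97,98,99,100,101,102,103,104,105,106,107,108,109,110,111,112,113,114,115,116,117,118,119,120,121,122,123,124,125,126,127,135,139,141,142,143,147,149,150,151,153,155,156,157,158,159,163,165,166,167,169,171,17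3,174,175,177,178,179,180,181,182,183,185,187,188,189,190,195,197,198,199,201,202,203,204,205,206,207,209,210,211,212,213,214,215,216,217,218,219,220,221,222,225,226,227,228,229,230,231,232,233,234,235,236,237,238,240,241,242,243,244,245,246,248,249,250,252,263,269,271,277,278,279,283,285,286,287,291,295,299,301,303,305,306,307,309,310,311,313,315,317,318,325,326,327,329,331,333,334,335,337,339,340,341,342,345,346,348,349,350,354,355,357,358,361,362,363,364,365,366,368,369,370,371,372,374,376,377,378,380,399,407,413,423,427,429,435,437,438,441,455,459,461,462,467,469,470,473,476,483,485,486,489,490,497,498,500,504,527,535,541,551,563,565,566,587,589,590,598,601,604,611,614,617,625,626,628,655,663,669,679,691,693,694,717,718,726,729,739,742,753,754,756,783,791,819,822,845,854,857,881,882,947,973,1010,1075,1101,1138]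

/-- The set of valid indices, as bits. -/
def bits : ℕ := 3733662566729257613565894379313408426973566596449378284671358749116831741194569369071683964172778509238884205174861322257420383351408385346493353180651541642924207787199397303292099338077751190380618327723574869007209526292970054833329314296197612296038873445170254534367572522774574031124543548464719647353972593628577339260199502317233372158

end T2h10.MB
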