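import Pool.Agent.T2h10.MB.Core
import Pool.Agent.T2h10.MB.Data

/-! The kernel check. -/

namespace T2h10.MB

/-- The table as a function. -/
def TB : ℕ → ℕ → List ℕ := TT tab

/-- Disjointness of the multidegrees. -/
def dj (i j : ℕ) : Bool := Nat.beq (Nat.land (Nat.mod i 128) (Nat.mod j 128)) 0

/-- The indices above `i` disjoint from `i`. -/
def nb (i : ℕ) : List ℕ := idxL.filter fun j => Nat.blt i j && dj i j

/-- The checks with the two first indices `i`, `j`. -/
def bodyJ (i : ℕ) (L1 : List ℕ) (j : ℕ) : Bool :=
  (fun L2 : List ℕ => L2.all fun k =>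
      (fun L3 : List ℕ => L3.all fun l => isz 12 (sg TB i j k l))
        (L2.filter fun l => dj k l))
      (L1.filter fun k => dj j k)

/-- All checks with smallest index `i`. -/
def chkI (i : ℕ) : Bool := (fun L1 : List ℕ => L1.all (bodyJ i L1)) (nb i)

/-- Part of the checks with smallest index `i`. -/
def chkP (i a b : ℕ) : Bool :=
  (fun L1 : List ℕ => ((L1.drop a).take b).all (bodyJ i L1)) (nb i)

theorem chunk {L : List ℕ} {p : ℕ → Bool} {a b : ℕ} (h1 : ((L.drop a).take b).all p = true)
    (h2 : (L.drop (a + b)).all p = true) : (L.drop a).all p = true := by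
  have e : L.drop a = (L.drop a).take b ++ L.drop (a + b) := by
    rw [← List.drop_drop, List.take_append_drop]
  rw [e, List.all_append, h1, h2]; rfl

end T2h10.MB
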