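import Pool.Agent.T2h10.MB.Tree

/-! The algebra attached to a multiplication table over `ZMod 5`, and the soundness of the
list-level check of the Malcev identity. -/

namespace T2h10.MB

/-- The space. -/
abbrev V := ℕ →₀ ZMod 5

/-- Table lookup for `i < j`. -/
def look (tab : Tr (Tr (List ℕ))) (i j : ℕ) : List ℕ := get (get tab i .e) j []

/-- Negation of a coded vector. -/
def negL (L : List ℕ) : List ℕ := L.map fun n => n / 8 * 8 + (5 - n % 8)

/-- The product of two basis vectors, as a coded vector. -/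
def TT (tab : Tr (Tr (List ℕ))) (i j : ℕ) : List ℕ :=
  bif Nat.blt i j then look tab i j else bif Nat.blt j i then negL (look tab j i) else []

/-- Decoding. -/
noncomputable def toM : List ℕ → V
  | [] => 0
  | n :: L => Finsupp.single (n / 8) ((n % 8 : ℕ) : ZMod 5) + toM L

theorem toM_append (L L' : List ℕ) : toM (L ++ L') = toM L + toM L' := by
  induction L with
  | nil => simp [toM]
  | cons n L ih => simp [toM, ih, add_assoc]

/-- Entries are coded with coefficients below 5. -/
def Cd (L : List ℕ) : Prop := ∀ n ∈ L, n % 8 < 5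

theorem toM_negL (L : List ℕ) (h : Cd L) : toM (negL L) = - toM L := by
  induction L with
  | nil => simp [toM, negL]
  | cons n L ih =>
    have hn : n % 8 < 5 := h n (by simp)
    have ih' := ih (fun m hm => h m (by simp [hm]))
    have e1 : (n / 8 * 8 + (5 - n % 8)) / 8 = n / 8 := by omega
    have e2 : (n / 8 * 8 + (5 - n % 8)) % 8 = 5 - n % 8 := by omega
    have e3 : (((5 - n % 8 : ℕ)) : ZMod 5) = - ((n % 8 : ℕ) : ZMod 5) := by
      rw [Nat.cast_sub (by omega)]
      have : ((5 : ℕ) : ZMod 5) = 0 := by decide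
      rw [this, zero_sub]
    have : negL (n :: L) = (n / 8 * 8 + (5 - n % 8)) :: negL L := rfl
    rw [this, toM, toM, ih', e1, e2, e3, Finsupp.single_neg, neg_add]

/-- The bilinear product. -/
noncomputable def mu (T : ℕ → ℕ → List ℕ) : V →ₗ[ZMod 5] V →ₗ[ZMod 5] V :=
  Finsupp.linearCombination (ZMod 5)
    (fun i => Finsupp.linearCombination (ZMod 5) (fun j => toM (T i j)))

theorem mu_single (T : ℕ → ℕ → List ℕ) (i j : ℕ) (a b : ZMod 5) :
    mu T (Finsupp.single i a) (Finsupp.single j b) = (a * b) • toM (T i j) := by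
  simp [mu, Finsupp.linearCombination_single, smul_smul, mul_comm]

/-- Right multiplication of a coded vector by a basis vector. -/
def mulR (T : ℕ → ℕ → List ℕ) (L : List ℕ) (j : ℕ) : List ℕ :=
  L.flatMap fun n => (T (n / 8) j).map fun m => m / 8 * 8 + n % 8 * (m % 8) % 5

/-- Product of coded vectors. -/
def mulLL (T : ℕ → ℕ → List ℕ) (L L' : List ℕ) : List ℕ :=
  L.flatMap fun n => L'.flatMap fun n' =>
    (T (n / 8) (n' / 8)).map fun m => m / 8 * 8 + n % 8 * (n' % 8) % 5 * (m % 8) % 5

theorem dec1 (m c : ℕ) (hc : c < 5) : (m / 8 * 8 + c) / 8 = m / 8 ∧ (m / 8 * 8 + c) % 8 = c := by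
  constructor <;> omega

theorem toM_map (L : List ℕ) (c : ℕ) :
    toM (L.map fun m => m / 8 * 8 + c * (m % 8) % 5) = ((c : ℕ) : ZMod 5) • toM L := by
  induction L with
  | nil => simp [toM]
  | cons m L ih =>
    have h := dec1 m (c * (m % 8) % 5) (Nat.mod_lt _ (by norm_num))
    rw [List.map_cons, toM, toM, ih, h.1, h.2, smul_add, Finsupp.smul_single, ZMod.natCast_mod,
      Nat.cast_mul, smul_eq_mul]

theorem toM_mulR (T : ℕ → ℕ → List ℕ) (L : List ℕ) (j : ℕ) :
    toM (mulR T L j) = mu T (toM L) (Finsupp.single j 1) := by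
  induction L with
  | nil => simp [mulR, toM]
  | cons n L ih =>
    have : mulR T (n :: L) j
      = ((T (n / 8) j).map fun m => m / 8 * 8 + n % 8 * (m % 8) % 5) ++ mulR T L j := by
      simp [mulR]
    rw [this, toM_append, ih, toM_map, toM, map_add, LinearMap.add_apply, mu_single, mul_one]

theorem toM_mulLL1 (T : ℕ → ℕ → List ℕ) (n : ℕ) (L' : List ℕ) :
    toM (L'.flatMap fun n' =>
      (T (n / 8) (n' / 8)).map fun m => m / 8 * 8 + n % 8 * (n' % 8) % 5 * (m % 8) % 5)
      = mu T (Finsupp.single (n / 8) ((n % 8 : ℕ) : ZMod 5)) (toM L') := by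
  induction L' with
  | nil => simp [toM]
  | cons n' L' ih =>
    rw [List.flatMap_cons, toM_append, ih, toM_map, toM, map_add, mu_single, ZMod.natCast_mod,
      Nat.cast_mul]

theorem toM_mulLL (T : ℕ → ℕ → List ℕ) (L L' : List ℕ) :
    toM (mulLL T L L') = mu T (toM L) (toM L') := by
  induction L with
  | nil => simp [mulLL, toM]
  | cons n L ih =>
    have : mulLL T (n :: L) L' = (L'.flatMap fun n' =>
      (T (n / 8) (n' / 8)).map fun m => m / 8 * 8 + n % 8 * (n' % 8) % 5 * (m % 8) % 5)
        ++ mulLL T L L' := by simp [mulLL]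
    rw [this, toM_append, toM_mulLL1, ih, toM, map_add, LinearMap.add_apply]

/-- Sum of the coefficients at key `k`. -/
def csum (k : ℕ) (L : List ℕ) : ℕ :=
  L.foldr (fun n s => bif Nat.beq (n / 8) k then n % 8 + s else s) 0

/-- Entries at other keys. -/
def rest (k : ℕ) (L : List ℕ) : List ℕ := L.filter fun n => !(Nat.beq (n / 8) k)

theorem toM_split (k : ℕ) (L : List ℕ) :
    toM L = Finsupp.single k ((csum k L : ℕ) : ZMod 5) + toM (rest k L) := by
  induction L with
  | nil => simp [toM, csum, rest]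
  | cons n L ih =>
    cases hb : Nat.beq (n / 8) k
    · have e1 : csum k (n :: L) = csum k L := by simp [csum, hb]
      have e2 : rest k (n :: L) = n :: rest k L := by simp [rest, hb]
      rw [e1, e2, toM, toM, ih]; abel
    · have hk : n / 8 = k := Nat.eq_of_beq_eq_true hb
      have e1 : csum k (n :: L) = n % 8 + csum k L := by simp [csum, hb]
      have e2 : rest k (n :: L) = rest k L := by simp [rest, hb]
      rw [e1, e2, toM, ih, hk, Nat.cast_add, Finsupp.single_add, add_assoc]

/-- Zero test. -/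
def isz : ℕ → List ℕ → Bool
  | _, [] => true
  | 0, _ :: _ => false
  | f + 1, n :: L => Nat.beq (csum (n / 8) (n :: L) % 5) 0 && isz f (rest (n / 8) (n :: L))

theorem isz_sound (f : ℕ) (L : List ℕ) (h : isz f L = true) : toM L = 0 := by
  induction f generalizing L with
  | zero =>
    cases L with
    | nil => rfl
    | cons n L => simp [isz] at h
  | succ f ih =>
    cases L with
    | nil => rfl
    | cons n L =>
      simp only [isz, Bool.and_eq_true] at h
      rw [toM_split (n / 8) (n :: L), ih _ h.2, add_zero]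
      have h1 : csum (n / 8) (n :: L) % 5 = 0 := Nat.eq_of_beq_eq_true h.1
      have h2 : ((csum (n / 8) (n :: L) : ℕ) : ZMod 5) = 0 := by
        rw [← ZMod.natCast_mod, h1]; simp
      rw [h2, Finsupp.single_zero]

/-- The coded difference of the two sides of the (linearised) Malcev identity. -/
def sg (T : ℕ → ℕ → List ℕ) (i j k l : ℕ) : List ℕ :=
  negL (mulLL T (T i k) (T j l)) ++ (mulR T (mulR T (T i j) k) l ++
    (mulR T (mulR T (T j k) l) i ++ (mulR T (mulR T (T k l) i) j ++ mulR T (mulR T (T l i) j) k)))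

/-- Basis vectors. -/
noncomputable def ev (i : ℕ) : V := Finsupp.single i 1

/-- The (linearised) Malcev expression. -/
noncomputable def SG (T : ℕ → ℕ → List ℕ) (x y z t : V) : V :=
  - mu T (mu T x z) (mu T y t) + (mu T (mu T (mu T x y) z) t + (mu T (mu T (mu T y z) t) x +
    (mu T (mu T (mu T z t) x) y + mu T (mu T (mu T t x) y) z)))

theorem mu_ev (T : ℕ → ℕ → List ℕ) (i j : ℕ) : mu T (ev i) (ev j) = toM (T i j) := by
  rw [ev, ev, mu_single, one_mul, one_smul]

theorem cd_mulLL (T : ℕ → ℕ → List ℕ) (L L' : List ℕ) : Cd (mulLL T L L') := by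
  intro n hn
  simp only [mulLL, List.mem_flatMap, List.mem_map] at hn
  obtain ⟨a, _, b, _, m, _, rfl⟩ := hn
  have := dec1 m (a % 8 * (b % 8) % 5 * (m % 8) % 5) (Nat.mod_lt _ (by norm_num))
  rw [this.2]
  exact Nat.mod_lt _ (by norm_num)

theorem toM_sg (T : ℕ → ℕ → List ℕ) (i j k l : ℕ) :
    toM (sg T i j k l) = SG T (ev i) (ev j) (ev k) (ev l) := by
  simp only [sg, SG, toM_append, toM_negL _ (cd_mulLL T _ _), toM_mulLL, toM_mulR, mu_ev]
  rfl

end T2h10.MB
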