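import Pool.Agent.T2h10.MB.Chk

/-! Multidegree bookkeeping: products of basis vectors with overlapping multidegrees vanish. -/

namespace T2h10.MB

/-- Validity of an index. -/
def tb (i : ℕ) : Bool := Nat.testBit bits i

/-- The check of one table entry. -/
def goodE (i j : ℕ) (L : List ℕ) : Bool :=
  (L.all fun n => Nat.beq ((n / 8) % 128) (Nat.lor (i % 128) (j % 128)) && Nat.blt (n % 8) 5)
    && (dj i j && (tb i && tb j))

theorem gradeOK :
    allT (fun i t => allT (fun j L => goodE i j L) t 0 1) tab 0 1 = true := by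
  decide +kernel

theorem look_good (i j : ℕ) : look tab i j = [] ∨ goodE i j (look tab i j) = true := by
  have h := get_allT _ tab 0 1 gradeOK i .e
  rcases h with h | h
  · left; rw [look, h]; rfl
  · have h2 := get_allT _ (get tab i .e) 0 1 h j []
    rcases h2 with h2 | h2
    · left; exact h2
    · right
      simp only [zero_add, one_mul] at h2
      exact h2

theorem goodE_mem {i j n : ℕ} {L : List ℕ} (h : goodE i j L = true) (hn : n ∈ L) :
    (n / 8) % 128 = Nat.lor (i % 128) (j % 128) ∧ n % 8 < 5 ∧ dj i j = true ∧ tb i = true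
      ∧ tb j = true := by
  simp only [goodE, Bool.and_eq_true, List.all_eq_true] at h
  obtain ⟨h1, h2, h3, h4⟩ := h
  obtain ⟨h5, h6⟩ := h1 n hn
  exact ⟨Nat.eq_of_beq_eq_true h5, by simpa [Nat.blt] using h6, h2, h3, h4⟩

theorem cd_look (i j : ℕ) : Cd (look tab i j) := by
  rcases look_good i j with h | h
  · rw [h]; intro n hn; simp at hn
  · intro n hn; exact (goodE_mem h hn).2.1

theorem look_mem {i j n : ℕ} (hn : n ∈ look tab i j) :
    (n / 8) % 128 = Nat.lor (i % 128) (j % 128) ∧ n % 8 < 5 ∧ dj i j = true ∧ tb i = true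
      ∧ tb j = true := by
  rcases look_good i j with h | h
  · rw [h] at hn; simp at hn
  · exact goodE_mem h hn

theorem dj_def (i j : ℕ) : dj i j = Nat.beq (Nat.land (i % 128) (j % 128)) 0 := rfl

theorem dj_comm (i j : ℕ) : dj i j = dj j i := by
  have : Nat.land (i % 128) (j % 128) = Nat.land (j % 128) (i % 128) :=
    Nat.land_comm (i % 128) (j % 128)
  rw [dj_def, dj_def, this]

theorem TB_mem {i j n : ℕ} (hn : n ∈ TB i j) :
    (n / 8) % 128 = Nat.lor (i % 128) (j % 128) ∧ dj i j = true ∧ tb i = true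
      ∧ tb j = true := by
  simp only [TB, TT] at hn
  cases h1 : Nat.blt i j
  · rw [h1] at hn
    cases h2 : Nat.blt j i
    · rw [h2] at hn; simp at hn
    · rw [h2] at hn
      simp only [cond_true, cond_false, negL, List.mem_map] at hn
      obtain ⟨m, hm, rfl⟩ := hn
      obtain ⟨a1, a2, a3, a4, a5⟩ := look_mem hm
      have e : (m / 8 * 8 + (5 - m % 8)) / 8 = m / 8 := by omega
      refine ⟨?_, ?_, a5, a4⟩
      · rw [e, a1]; exact Nat.lor_comm (j % 128) (i % 128)
      · rw [dj_comm]; exact a3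
  · rw [h1] at hn
    simp only [cond_true] at hn
    obtain ⟨a1, a2, a3, a4, a5⟩ := look_mem hn
    exact ⟨a1, a3, a4, a5⟩

theorem TB_anti (i j : ℕ) : toM (TB j i) = - toM (TB i j) := by
  rcases lt_trichotomy i j with h | h | h
  · have h1 : Nat.blt i j = true := by simpa [Nat.blt] using h
    have h2 : Nat.blt j i = false := by
      rw [Bool.eq_false_iff]; intro h3; have : j < i := by simpa [Nat.blt] using h3
      omega
    simp only [TB, TT, h1, h2, cond_true, cond_false]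
    rw [toM_negL _ (cd_look i j)]
  · subst h
    have h2 : Nat.blt i i = false := by
      rw [Bool.eq_false_iff]; intro h3; simp [Nat.blt] at h3
    simp [TB, TT, h2, toM]
  · have h1 : Nat.blt j i = true := by simpa [Nat.blt] using h
    have h2 : Nat.blt i j = false := by
      rw [Bool.eq_false_iff]; intro h3; have : i < j := by simpa [Nat.blt] using h3
      omega
    simp only [TB, TT, h1, h2, cond_true, cond_false]
    rw [toM_negL _ (cd_look j i), neg_neg]

theorem mem_mulR {T : ℕ → ℕ → List ℕ} {L : List ℕ} {j n : ℕ} (h : n ∈ mulR T L j) :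
    ∃ a ∈ L, ∃ m ∈ T (a / 8) j, n / 8 = m / 8 := by
  simp only [mulR, List.mem_flatMap, List.mem_map] at h
  obtain ⟨a, ha, m, hm, rfl⟩ := h
  exact ⟨a, ha, m, hm, (dec1 m _ (Nat.mod_lt _ (by norm_num))).1⟩

theorem mem_mulLL {T : ℕ → ℕ → List ℕ} {L L' : List ℕ} {n : ℕ} (h : n ∈ mulLL T L L') :
    ∃ a ∈ L, ∃ b ∈ L', ∃ m ∈ T (a / 8) (b / 8), n / 8 = m / 8 := by
  simp only [mulLL, List.mem_flatMap, List.mem_map] at h
  obtain ⟨a, ha, b, hb, m, hm, rfl⟩ := h
  exact ⟨a, ha, b, hb, m, hm, (dec1 m _ (Nat.mod_lt _ (by norm_num))).1⟩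

/-- All valid and pairwise disjoint. -/
def Good (i j k l : ℕ) : Prop :=
  (tb i = true ∧ tb j = true ∧ tb k = true ∧ tb l = true) ∧
  (dj i j = true ∧ dj i k = true ∧ dj i l = true ∧ dj j k = true ∧ dj j l = true ∧
    dj k l = true)

theorem dj_or {m i j l : ℕ} (h : m % 128 = Nat.lor (i % 128) (j % 128)) (h2 : dj m l = true) :
    dj i l = true ∧ dj j l = true := by
  have h3 : Nat.land (m % 128) (l % 128) = 0 := Nat.eq_of_beq_eq_true h2
  rw [h] at h3
  have h4 : Nat.land (Nat.lor (i % 128) (j % 128)) (l % 128)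
    = Nat.lor (Nat.land (i % 128) (l % 128)) (Nat.land (j % 128) (l % 128)) :=
    Nat.and_or_distrib_right (i % 128) (j % 128) (l % 128)
  rw [h4] at h3
  have h5 := Nat.or_eq_zero_iff.mp h3
  constructor
  · rw [dj_def, h5.1]; rfl
  · rw [dj_def, h5.2]; rfl

theorem tri {i j k l n : ℕ} (h : n ∈ mulR TB (mulR TB (TB i j) k) l) : Good i j k l := by
  obtain ⟨a, ha, m, hm, -⟩ := mem_mulR h
  obtain ⟨a', ha', m', hm', e⟩ := mem_mulR ha
  obtain ⟨b1, b2, b3, b4⟩ := TB_mem ha'
  obtain ⟨c1, c2, c3, c4⟩ := TB_mem hm'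
  obtain ⟨d1, d2, d3, d4⟩ := TB_mem hm
  rw [← e] at c1
  obtain ⟨e1, e2⟩ := dj_or b1 c2
  obtain ⟨f1, f2⟩ := dj_or c1 d2
  obtain ⟨g1, g2⟩ := dj_or b1 f1
  exact ⟨⟨b3, b4, c4, d4⟩, b2, e1, g1, e2, g2, f2⟩

theorem quad {i j k l n : ℕ} (h : n ∈ mulLL TB (TB i k) (TB j l)) : Good i j k l := by
  obtain ⟨a, ha, b, hb, m, hm, -⟩ := mem_mulLL h
  obtain ⟨b1, b2, b3, b4⟩ := TB_mem ha
  obtain ⟨c1, c2, c3, c4⟩ := TB_mem hb
  obtain ⟨d1, d2, d3, d4⟩ := TB_mem hm
  obtain ⟨e1, e2⟩ := dj_or b1 d2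
  rw [dj_comm] at e1 e2
  obtain ⟨f1, f2⟩ := dj_or c1 e1
  obtain ⟨g1, g2⟩ := dj_or c1 e2
  exact ⟨⟨b3, c3, b4, c4⟩, by rw [dj_comm]; exact f1, b2, by rw [dj_comm]; exact f2,
    g1, c2, by rw [dj_comm]; exact g2⟩

theorem Good.rot {i j k l : ℕ} (h : Good i j k l) : Good j k l i := by
  obtain ⟨⟨a, b, c, d⟩, e, f, g, p, q, r⟩ := h
  exact ⟨⟨b, c, d, a⟩, p, q, by rw [dj_comm]; exact e, r, by rw [dj_comm]; exact f,
    by rw [dj_comm]; exact g⟩

theorem sg_nil {i j k l : ℕ} (h : ¬ Good i j k l) : sg TB i j k l = [] := by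
  rw [List.eq_nil_iff_forall_not_mem]
  intro n hn
  apply h
  simp only [sg, List.mem_append] at hn
  rcases hn with hn | hn | hn | hn | hn
  · simp only [negL, List.mem_map] at hn
    obtain ⟨m, hm, -⟩ := hn
    exact quad hm
  · exact tri hn
  · exact (tri hn).rot.rot.rot
  · exact (tri hn).rot.rot
  · exact (tri hn).rot

end T2h10.MB
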