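import Pool.Agent.T2h10.MB.Chk

namespace T2h10.MB

theorem p1_0 : chkP 1 0 1 = true := by decide +kernel
theorem p1_1 : chkP 1 1 1 = true := by decide +kernel
theorem p1_2 : chkP 1 2 1 = true := by decide +kernel
theorem p1_3 : chkP 1 3 1 = true := by decide +kernel
theorem p1_4 : chkP 1 4 2 = true := by decide +kernel
theorem p1_5 : chkP 1 6 1 = true := by decide +kernel
theorem p1_6 : chkP 1 7 6 = true := by decide +kernel

end T2h10.MB
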