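import Pool.Agent.T2h10.MB.Grade
import Pool.Agent.T2h10.MB.All

/-! The algebra is a Malcev algebra and it is exceptional. -/

namespace T2h10.MB

theorem memcheck :
    (List.range 1152).all (fun i => !(tb i) || idxL.any (fun j => Nat.beq i j)) = true := by
  decide +kernel

theorem bits_lt : bits < 2 ^ 1152 := by decide +kernel

theorem tb_mem {i : ℕ} (h : tb i = true) : i ∈ idxL := by
  have h1 : i < 1152 := by
    by_contra hc
    have h2 : bits < 2 ^ i := lt_of_lt_of_le bits_lt (Nat.pow_le_pow_right (by norm_num) (by omega))
    have h3 := Nat.testBit_lt_two_pow h2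
    rw [tb, h3] at h
    exact absurd h (by decide)
  have h2 := List.all_eq_true.mp memcheck i (List.mem_range.mpr h1)
  rw [h] at h2
  simp only [Bool.not_true, Bool.false_or, List.any_eq_true] at h2
  obtain ⟨j, hj, hb⟩ := h2
  rw [Nat.eq_of_beq_eq_true hb]; exact hj

theorem maskcheck : idxL.all (fun i => !(Nat.beq (i % 128) 0)) = true := by decide +kernel

theorem ne_of_dj {i j : ℕ} (hi : tb i = true) (h : dj i j = true) : i ≠ j := by
  rintro rfl
  have h1 : Nat.land (i % 128) (i % 128) = 0 := Nat.eq_of_beq_eq_true h
  have h2 : Nat.land (i % 128) (i % 128) = i % 128 := Nat.and_self (i % 128)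
  rw [h2] at h1
  have h3 := List.all_eq_true.mp maskcheck i (tb_mem hi)
  rw [h1] at h3
  exact absurd h3 (by decide)

theorem blt_iff {i j : ℕ} : Nat.blt i j = true ↔ i < j := by simp [Nat.blt, Nat.succ_le_iff]

theorem SG_min {i j k l : ℕ} (g : Good i j k l) (h1 : i < j) (h2 : i < k) (h3 : i < l) :
    SG TB (ev i) (ev j) (ev k) (ev l) = 0 := by
  obtain ⟨⟨a, b, c, d⟩, e1, e2, e3, e4, e5, e6⟩ := g
  have hi := List.all_eq_true.mp kall i (tb_mem a)
  simp only [chkI, bodyJ, nb, List.all_eq_true, List.mem_filter, Bool.and_eq_true, and_imp] at hi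
  have := hi j (tb_mem b) (blt_iff.mpr h1) e1 k (tb_mem c) (blt_iff.mpr h2) e2 e4 l
    (tb_mem d) (blt_iff.mpr h3) e3 e5 e6
  rw [← toM_sg]
  exact isz_sound _ _ this

/-- Anticommutativity. -/
theorem mu_anti (x y : V) : mu TB x y = - mu TB y x := by
  induction x using Finsupp.induction_linear with
  | zero => simp
  | add x x' h h' => simp only [map_add, LinearMap.add_apply, h, h', neg_add]
  | single i a =>
    induction y using Finsupp.induction_linear with
    | zero => simp
    | add y y' h h' => simp only [map_add, LinearMap.add_apply, h, h', neg_add]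
    | single j b => rw [mu_single, mu_single, TB_anti i j, smul_neg, neg_neg, mul_comm]

theorem SG_rot (x y z t : V) : SG TB x y z t = SG TB y z t x := by
  simp only [SG]
  rw [mu_anti (mu TB y t) (mu TB z x), mu_anti z x]
  simp only [map_neg, LinearMap.neg_apply]
  abel

theorem SG_ev (i j k l : ℕ) : SG TB (ev i) (ev j) (ev k) (ev l) = 0 := by
  by_cases g : Good i j k l
  · have n1 := ne_of_dj g.1.1 g.2.1
    have n2 := ne_of_dj g.1.1 g.2.2.1
    have n3 := ne_of_dj g.1.1 g.2.2.2.1
    have n4 := ne_of_dj g.1.2.1 g.2.2.2.2.1
    have n5 := ne_of_dj g.1.2.1 g.2.2.2.2.2.1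
    have n6 := ne_of_dj g.1.2.2.1 g.2.2.2.2.2.2
    by_cases h1 : i < j ∧ i < k ∧ i < l
    · exact SG_min g h1.1 h1.2.1 h1.2.2
    · by_cases h2 : j < k ∧ j < l ∧ j < i
      · rw [SG_rot]; exact SG_min g.rot h2.1 h2.2.1 h2.2.2
      · by_cases h3 : k < l ∧ k < i ∧ k < j
        · rw [SG_rot, SG_rot]; exact SG_min g.rot.rot h3.1 h3.2.1 h3.2.2
        · rw [SG_rot, SG_rot, SG_rot]
          exact SG_min g.rot.rot.rot (by omega) (by omega) (by omega)
  · rw [← toM_sg, sg_nil g]; rfl

theorem single_ev (i : ℕ) (a : ZMod 5) : (Finsupp.single i a : V) = a • ev i := by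
  rw [ev, Finsupp.smul_single, smul_eq_mul, mul_one]

theorem SG_zero (x y z t : V) : SG TB x y z t = 0 := by
  induction x using Finsupp.induction_linear with
  | zero => simp [SG]
  | add x x' h h' =>
    have : SG TB (x + x') y z t = SG TB x y z t + SG TB x' y z t := by
      simp only [SG, map_add, LinearMap.add_apply]; abel
    rw [this, h, h', add_zero]
  | single i a =>
    have e1 : SG TB (Finsupp.single i a) y z t = a • SG TB (ev i) y z t := by
      rw [single_ev]
      simp only [SG, map_smul, LinearMap.smul_apply, smul_add, smul_neg]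
    rw [e1]
    induction y using Finsupp.induction_linear with
    | zero => simp [SG]
    | add y y' h h' =>
      have : SG TB (ev i) (y + y') z t = SG TB (ev i) y z t + SG TB (ev i) y' z t := by
        simp only [SG, map_add, LinearMap.add_apply]; abel
      have h1 : a • SG TB (ev i) y z t = 0 := h (by
        rw [single_ev]; simp only [SG, map_smul, LinearMap.smul_apply, smul_add, smul_neg])
      have h2 : a • SG TB (ev i) y' z t = 0 := h' (by
        rw [single_ev]; simp only [SG, map_smul, LinearMap.smul_apply, smul_add, smul_neg])
      rw [this, smul_add, h1, h2, add_zero]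
    | single j b =>
      have e2 : SG TB (ev i) (Finsupp.single j b) z t = b • SG TB (ev i) (ev j) z t := by
        rw [single_ev]
        simp only [SG, map_smul, LinearMap.smul_apply, smul_add, smul_neg]
      rw [e2]
      have key : ∀ z t : V, SG TB (ev i) (ev j) z t = 0 := by
        intro z t
        induction z using Finsupp.induction_linear with
        | zero => simp [SG]
        | add z z' h h' =>
          have : SG TB (ev i) (ev j) (z + z') t
              = SG TB (ev i) (ev j) z t + SG TB (ev i) (ev j) z' t := by
            simp only [SG, map_add, LinearMap.add_apply]; abel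
          rw [this, h, h', add_zero]
        | single k c =>
          have e3 : SG TB (ev i) (ev j) (Finsupp.single k c) t
              = c • SG TB (ev i) (ev j) (ev k) t := by
            rw [single_ev]
            simp only [SG, map_smul, LinearMap.smul_apply, smul_add, smul_neg]
          have key2 : ∀ t : V, SG TB (ev i) (ev j) (ev k) t = 0 := by
            intro t
            induction t using Finsupp.induction_linear with
            | zero => simp [SG]
            | add t t' h h' =>
              have : SG TB (ev i) (ev j) (ev k) (t + t')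
                  = SG TB (ev i) (ev j) (ev k) t + SG TB (ev i) (ev j) (ev k) t' := by
                simp only [SG, map_add, LinearMap.add_apply]; abel
              rw [this, h, h', add_zero]
            | single l d =>
              have e4 : SG TB (ev i) (ev j) (ev k) (Finsupp.single l d)
                  = d • SG TB (ev i) (ev j) (ev k) (ev l) := by
                rw [single_ev]
                simp only [SG, map_smul, LinearMap.smul_apply, smul_add, smul_neg]
              rw [e4, SG_ev, smul_zero]
          rw [e3, key2, smul_zero]
      rw [key, smul_zero, smul_zero]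

end T2h10.MB
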