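import Mathlib

/-! A small search tree keyed by natural numbers (low bit first), and the list-level product. -/

namespace T2h10.MB

/-- Search trees. -/
inductive Tr (α : Type) : Type
  | e : Tr α
  | l : ℕ → α → Tr α
  | n : Tr α → Tr α → Tr α

/-- Lookup with default value. -/
def get {α : Type} : Tr α → ℕ → α → α
  | .e, _, d => d
  | .l r a, i, d => bif Nat.beq i r then a else d
  | .n x y, i, d => bif Nat.beq (i % 2) 0 then get x (i / 2) d else get y (i / 2) d

/-- Check a property of all entries. -/
def allT {α : Type} (p : ℕ → α → Bool) : Tr α → ℕ → ℕ → Bool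
  | .e, _, _ => true
  | .l r a, acc, pv => p (acc + pv * r) a
  | .n x y, acc, pv => allT p x acc (2 * pv) && allT p y (acc + pv) (2 * pv)

theorem get_allT {α : Type} (p : ℕ → α → Bool) (t : Tr α) (acc pv : ℕ)
    (h : allT p t acc pv = true) (i : ℕ) (d : α) :
    get t i d = d ∨ p (acc + pv * i) (get t i d) = true := by
  induction t generalizing acc pv i with
  | e => left; rfl
  | l r a =>
    simp only [get]
    cases hb : Nat.beq i r
    · left; rfl
    · right
      have : i = r := Nat.eq_of_beq_eq_true hb
      subst this
      exact h
  | n x y ihx ihy =>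
    simp only [allT, Bool.and_eq_true] at h
    simp only [get]
    have hi : i = 2 * (i / 2) + i % 2 := (Nat.div_add_mod i 2).symm
    cases hb : Nat.beq (i % 2) 0
    · have h1 : i % 2 = 1 := by
        have : i % 2 ≠ 0 := fun h0 => by rw [h0] at hb; exact absurd hb (by decide)
        omega
      have e : acc + pv * i = (acc + pv) + (2 * pv) * (i / 2) := by
        conv_lhs => rw [hi, h1]
        ring
      simp only [cond_false]
      rw [e]
      exact ihy _ _ h.2 _
    · have h1 : i % 2 = 0 := Nat.eq_of_beq_eq_true hb
      have e : acc + pv * i = acc + (2 * pv) * (i / 2) := by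
        conv_lhs => rw [hi, h1]
        ring
      simp only [cond_true]
      rw [e]
      exact ihx _ _ h.1 _

end T2h10.MB
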